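import Mathlib

/-! Definitions for the disproof of real-part L1 control on the sphere (MP_6b57c7). -/

namespace Pool.Agent.Helper546.RW

open MeasureTheory Set Filter Topology
open scoped ENNReal NNReal

/-- average over the first `n` coordinates running through the fourth roots of unity -/
noncomputable def Av : ℕ → ((ℕ → ℂ) → ℝ) → ℝ
  | 0, F => F (fun _ => 1)
  | n + 1, F => (1 / 4) * ∑ k : Fin 4, Av n (fun ε => F (Function.update ε n (Complex.I ^ (k : ℕ))))

/-- product of falling factorials `j^{(a)} (N-j)^{(b)} / N^{(a+b)}` -/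
noncomputable def kap (N a b : ℕ) (j : ℕ) : ℝ :=
  (∏ i ∈ Finset.range a, ((j : ℝ) - i)) * (∏ i ∈ Finset.range b, ((N : ℝ) - j - i)) /
    ∏ i ∈ Finset.range (a + b), ((N : ℝ) - i)

/-- the random homogeneous polynomial -/
noncomputable def Wp (N : ℕ) (ε : ℕ → ℂ) : MvPolynomial (Fin 2) ℂ :=
  ∑ j ∈ Finset.range (N + 1), MvPolynomial.C (ε j * (Real.sqrt (N.choose j) : ℝ)) *
    MvPolynomial.X 0 ^ j * MvPolynomial.X 1 ^ (N - j)

/-- polynomial close to `Re p * Wp N ε` on the sphere -/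
noncomputable def Qp (p : MvPolynomial (Fin 2) ℂ) (N : ℕ) (ε : ℕ → ℂ) : MvPolynomial (Fin 2) ℂ :=
  MvPolynomial.C (1 / 2) * (p * Wp N ε) + MvPolynomial.C (1 / 2) * ∑ α ∈ p.support,
    ∑ j ∈ Finset.range (N + 1), MvPolynomial.C ((starRingEnd ℂ) (MvPolynomial.coeff α p) *
      (ε j * (Real.sqrt (N.choose j) : ℝ)) * (kap N (α 0) (α 1) j : ℝ)) *
    MvPolynomial.X 0 ^ (j - α 0) * MvPolynomial.X 1 ^ (N - j - α 1)

end Pool.Agent.Helper546.RW
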