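import Mathlib
import Pool.Agent.Helper546.RW.Defs

set_option autoImplicit false

namespace Pool.Agent.Helper546.RW.A

open MeasureTheory Set Filter Topology
open scoped ENNReal NNReal
open Pool.Agent.Helper546.RW

theorem Av_mono (n : ℕ) (F G : (ℕ → ℂ) → ℝ) (h : ∀ ε, F ε ≤ G ε) : Av n F ≤ Av n G := by
  induction n generalizing F G with
  | zero => exact h _
  | succ n ih =>
    simp only [Av]
    refine mul_le_mul_of_nonneg_left ?_ (by norm_num)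
    exact Finset.sum_le_sum fun k _ => ih _ _ fun ε => h _

theorem Av_add (n : ℕ) (F G : (ℕ → ℂ) → ℝ) : Av n (fun ε => F ε + G ε) = Av n F + Av n G := by
  induction n generalizing F G with
  | zero => rfl
  | succ n ih =>
    simp only [Av]
    rw [← mul_add, ← Finset.sum_add_distrib]
    congr 1
    exact Finset.sum_congr rfl fun k _ => ih _ _

theorem Av_mul (n : ℕ) (c : ℝ) (F : (ℕ → ℂ) → ℝ) : Av n (fun ε => c * F ε) = c * Av n F := by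
  induction n generalizing F with
  | zero => rfl
  | succ n ih =>
    simp only [Av]
    have h : ∀ k : Fin 4, Av n (fun ε => c * F (Function.update ε n (Complex.I ^ (k : ℕ)))) =
        c * Av n (fun ε => F (Function.update ε n (Complex.I ^ (k : ℕ)))) := fun k => ih _
    simp only [h]
    rw [← Finset.mul_sum]
    ring

theorem Av_const (n : ℕ) (c : ℝ) : Av n (fun _ => c) = c := by
  induction n with
  | zero => rfl
  | succ n ih =>
    simp only [Av, ih]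
    simp

theorem Av_exists (n : ℕ) (F : (ℕ → ℂ) → ℝ) (h : 0 < Av n F) : ∃ ε, 0 < F ε := by
  by_contra hcon
  push Not at hcon
  have h1 := Av_mono n F (fun _ => 0) hcon
  rw [Av_const] at h1
  linarith

theorem Av_integral {X : Type} [MeasurableSpace X] (μ : Measure X) (n : ℕ) (g : (ℕ → ℂ) → X → ℝ)
    (hg : ∀ ε, Integrable (g ε) μ) :
    Av n (fun ε => ∫ x, g ε x ∂μ) = ∫ x, Av n (fun ε => g ε x) ∂μ ∧ Integrable (fun x => Av n (fun ε => g ε x)) μ := by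
  induction n generalizing g with
  | zero => exact ⟨rfl, hg _⟩
  | succ n ih =>
    have h1 : ∀ k : Fin 4, Integrable (fun x => Av n (fun ε => g (Function.update ε n (Complex.I ^ (k : ℕ))) x)) μ :=
      fun k => (ih (fun ε => g (Function.update ε n (Complex.I ^ (k : ℕ)))) (fun ε => hg _)).2
    have h2 : ∀ k : Fin 4, Av n (fun ε => ∫ x, g (Function.update ε n (Complex.I ^ (k : ℕ))) x ∂μ) =
        ∫ x, Av n (fun ε => g (Function.update ε n (Complex.I ^ (k : ℕ))) x) ∂μ :=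
      fun k => (ih (fun ε => g (Function.update ε n (Complex.I ^ (k : ℕ)))) (fun ε => hg _)).1
    simp only [Av]
    constructor
    · rw [integral_const_mul, integral_finsetSum _ (fun k _ => h1 k)]
      congr 1
      exact Finset.sum_congr rfl fun k _ => h2 k
    · exact (integrable_finsetSum _ (fun k _ => h1 k)).const_mul _

theorem Av_peel (n : ℕ) (w : ℕ → ℂ) (F : ℂ → ℝ) :
    Av (n + 1) (fun ε => F (∑ j ∈ Finset.range (n + 1), ε j * w j)) =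
      (1 / 4) * ∑ k : Fin 4, Av n (fun ε => F (∑ j ∈ Finset.range n, ε j * w j + Complex.I ^ (k : ℕ) * w n)) := by
  simp only [Av]
  congr 1
  refine Finset.sum_congr rfl fun k _ => ?_
  congr 1
  funext ε
  rw [Finset.sum_range_succ, Function.update_self]
  congr 2
  refine Finset.sum_congr rfl fun j hj => ?_
  rw [Function.update_of_ne (Finset.mem_range.1 hj).ne]

theorem nsq_sum (a b : ℂ) : ‖a + b‖ ^ 2 + ‖a + Complex.I * b‖ ^ 2 + ‖a + Complex.I * (Complex.I * b)‖ ^ 2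
    + ‖a + Complex.I * (Complex.I * (Complex.I * b))‖ ^ 2 = 4 * (‖a‖ ^ 2 + ‖b‖ ^ 2) := by
  simp only [← Complex.normSq_eq_norm_sq, Complex.normSq_apply, Complex.add_re, Complex.add_im,
    Complex.mul_re, Complex.mul_im, Complex.I_re, Complex.I_im]
  ring

theorem nfour_sum (a b : ℂ) : ‖a + b‖ ^ 4 + ‖a + Complex.I * b‖ ^ 4 + ‖a + Complex.I * (Complex.I * b)‖ ^ 4
    + ‖a + Complex.I * (Complex.I * (Complex.I * b))‖ ^ 4 =
    4 * (‖a‖ ^ 4 + 4 * ‖a‖ ^ 2 * ‖b‖ ^ 2 + ‖b‖ ^ 4) := by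
  have h : ∀ z : ℂ, ‖z‖ ^ 4 = (Complex.normSq z) ^ 2 := by
    intro z
    rw [Complex.normSq_eq_norm_sq]
    ring
  simp only [h]
  simp only [← Complex.normSq_eq_norm_sq, Complex.normSq_apply, Complex.add_re, Complex.add_im,
    Complex.mul_re, Complex.mul_im, Complex.I_re, Complex.I_im]
  ring

theorem Ipow_simp (w : ℂ) : Complex.I ^ ((0 : Fin 4) : ℕ) * w = w ∧ Complex.I ^ ((1 : Fin 4) : ℕ) * w = Complex.I * w ∧
    Complex.I ^ ((2 : Fin 4) : ℕ) * w = Complex.I * (Complex.I * w) ∧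
    Complex.I ^ ((3 : Fin 4) : ℕ) * w = Complex.I * (Complex.I * (Complex.I * w)) := by
  refine ⟨?_, ?_, ?_, ?_⟩
  · simp
  · simp
  · show Complex.I ^ 2 * w = _
    ring
  · show Complex.I ^ 3 * w = _
    ring

/-- only the first `n` coordinates matter -/
theorem Av_sq (n : ℕ) (w : ℕ → ℂ) (A : ℂ) :
    Av n (fun ε => ‖A + ∑ j ∈ Finset.range n, ε j * w j‖ ^ 2) = ‖A‖ ^ 2 + ∑ j ∈ Finset.range n, ‖w j‖ ^ 2 := by
  induction n generalizing A with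
  | zero => simp [Av]
  | succ n ih =>
    rw [Av_peel n w (fun s => ‖A + s‖ ^ 2)]
    have h1 : ∀ k : Fin 4, Av n (fun ε => ‖A + (∑ j ∈ Finset.range n, ε j * w j + Complex.I ^ (k : ℕ) * w n)‖ ^ 2) =
        ‖A + Complex.I ^ (k : ℕ) * w n‖ ^ 2 + ∑ j ∈ Finset.range n, ‖w j‖ ^ 2 := by
      intro k
      rw [← ih]
      congr 1
      funext ε
      congr 2
      ring
    simp only [h1]
    obtain ⟨e0, e1, e2, e3⟩ := Ipow_simp (w n)
    rw [Fin.sum_univ_four, e0, e1, e2, e3, Finset.sum_range_succ]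
    have := nsq_sum A (w n)
    linarith

theorem Av_four (n : ℕ) (w : ℕ → ℂ) :
    Av n (fun ε => ‖∑ j ∈ Finset.range n, ε j * w j‖ ^ 4) ≤ 2 * (∑ j ∈ Finset.range n, ‖w j‖ ^ 2) ^ 2 := by
  induction n with
  | zero => simp [Av]
  | succ n ih =>
    rw [Av_peel n w (fun s => ‖s‖ ^ 4)]
    obtain ⟨e0, e1, e2, e3⟩ := Ipow_simp (w n)
    rw [Fin.sum_univ_four, e0, e1, e2, e3]
    rw [← Av_add, ← Av_add, ← Av_add]
    simp only [nfour_sum]
    rw [Av_mul]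
    have h2 : Av n (fun ε => ‖∑ j ∈ Finset.range n, ε j * w j‖ ^ 4 +
        4 * ‖∑ j ∈ Finset.range n, ε j * w j‖ ^ 2 * ‖w n‖ ^ 2 + ‖w n‖ ^ 4) =
        Av n (fun ε => ‖∑ j ∈ Finset.range n, ε j * w j‖ ^ 4) +
          4 * ‖w n‖ ^ 2 * (∑ j ∈ Finset.range n, ‖w j‖ ^ 2) + ‖w n‖ ^ 4 := by
      rw [Av_add n (fun ε => ‖∑ j ∈ Finset.range n, ε j * w j‖ ^ 4 +
        4 * ‖∑ j ∈ Finset.range n, ε j * w j‖ ^ 2 * ‖w n‖ ^ 2) (fun _ => ‖w n‖ ^ 4), Av_const,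
        Av_add n (fun ε => ‖∑ j ∈ Finset.range n, ε j * w j‖ ^ 4)
          (fun ε => 4 * ‖∑ j ∈ Finset.range n, ε j * w j‖ ^ 2 * ‖w n‖ ^ 2)]
      have h3 : (fun ε : ℕ → ℂ => 4 * ‖∑ j ∈ Finset.range n, ε j * w j‖ ^ 2 * ‖w n‖ ^ 2) =
          fun ε => (4 * ‖w n‖ ^ 2) * ‖∑ j ∈ Finset.range n, ε j * w j‖ ^ 2 := by
        funext ε
        ring
      rw [h3, Av_mul]
      have h4 := Av_sq n w 0
      simp only [zero_add, norm_zero] at h4
      rw [h4]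
      ring
    rw [h2, Finset.sum_range_succ]
    have h5 : 0 ≤ ∑ j ∈ Finset.range n, ‖w j‖ ^ 2 := Finset.sum_nonneg fun _ _ => by positivity
    have h6 : 0 ≤ ‖w n‖ ^ 2 := by positivity
    have h7 : ‖w n‖ ^ 4 = (‖w n‖ ^ 2) ^ 2 := by ring
    rw [h7]
    nlinarith

theorem Av_rot (n : ℕ) (w : ℕ → ℂ) (F : ℂ → ℝ) :
    Av n (fun ε => F (∑ j ∈ Finset.range n, ε j * w j)) = Av n (fun ε => F (Complex.I * ∑ j ∈ Finset.range n, ε j * w j)) := by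
  induction n generalizing F with
  | zero => simp [Av]
  | succ n ih =>
    rw [Av_peel n w F, Av_peel n w (fun s => F (Complex.I * s))]
    obtain ⟨e0, e1, e2, e3⟩ := Ipow_simp (w n)
    rw [Fin.sum_univ_four, Fin.sum_univ_four, e0, e1, e2, e3]
    have h : ∀ c : ℂ, Av n (fun ε => F (∑ j ∈ Finset.range n, ε j * w j + c)) =
        Av n (fun ε => F (Complex.I * (∑ j ∈ Finset.range n, ε j * w j) + c)) := fun c =>
      ih (fun s => F (s + c))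
    simp only [h, mul_add]
    have h4 : Complex.I * (Complex.I * (Complex.I * (Complex.I * w n))) = w n := by
      have : Complex.I * (Complex.I * (Complex.I * (Complex.I * w n))) =
          (Complex.I * Complex.I) * (Complex.I * Complex.I) * w n := by ring
      rw [this, Complex.I_mul_I]
      ring
    rw [h4]
    ring

theorem Av_re (n : ℕ) (w : ℕ → ℂ) : Av n (fun ε => (∑ j ∈ Finset.range n, ε j * w j).re) = 0 := by
  have h1 := Av_rot n w (fun s => s.re)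
  have h2 := Av_rot n w (fun s => (Complex.I * s).re)
  have h3 : (fun ε : ℕ → ℂ => (Complex.I * (Complex.I * ∑ j ∈ Finset.range n, ε j * w j)).re) =
      fun ε => (-1 : ℝ) * (∑ j ∈ Finset.range n, ε j * w j).re := by
    funext ε
    rw [← mul_assoc, Complex.I_mul_I]
    simp
  rw [h3, Av_mul] at h2
  linarith

/-- four point inequality -/
theorem four_point (a b : ℂ) :
    ‖a‖ + (1 / 6) * (‖b‖ ^ 2 / ‖a‖ - ‖b‖ ^ 4 / ‖a‖ ^ 3) ≤
      (1 / 4) * (‖a + b‖ + ‖a + Complex.I * b‖ + ‖a + Complex.I * (Complex.I * b)‖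
        + ‖a + Complex.I * (Complex.I * (Complex.I * b))‖) := by
  by_cases ha : a = 0
  · subst ha
    simp only [norm_zero, zero_add, div_zero, sub_zero, mul_zero, ne_eq, OfNat.ofNat_ne_zero,
      not_false_eq_true, zero_pow]
    positivity
  have hA : 0 < ‖a‖ := norm_pos_iff.2 ha
  obtain ⟨x, hx⟩ : ∃ x, x = ‖a‖ := ⟨_, rfl⟩
  obtain ⟨y, hy⟩ : ∃ y, y = ‖b‖ := ⟨_, rfl⟩
  have hy0 : 0 ≤ y := by rw [hy]; exact norm_nonneg _
  obtain ⟨p, hp⟩ : ∃ p, p = ‖a + b‖ + ‖a + Complex.I * (Complex.I * b)‖ := ⟨_, rfl⟩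
  obtain ⟨q, hq⟩ : ∃ q, q = ‖a + Complex.I * b‖ + ‖a + Complex.I * (Complex.I * (Complex.I * b))‖ := ⟨_, rfl⟩
  have i2 : Complex.I * (Complex.I * b) = -b := by
    rw [← mul_assoc, Complex.I_mul_I]; ring
  have i3 : Complex.I * (Complex.I * (Complex.I * b)) = -(Complex.I * b) := by
    rw [← mul_assoc, Complex.I_mul_I]; ring
  have hgen : ∀ c : ℂ, ‖c‖ = y → 2 * x ≤ ‖a + c‖ + ‖a + -c‖ ∧ ‖a + c‖ + ‖a + -c‖ ≤ 2 * (x + y) ∧
      (‖a + c‖ + ‖a + -c‖) ^ 2 = 2 * (x ^ 2 + y ^ 2) + 2 * ‖a ^ 2 - c ^ 2‖ := by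
    intro c hc
    refine ⟨?_, ?_, ?_⟩
    · have h1 : ‖(a + c) + (a + -c)‖ ≤ ‖a + c‖ + ‖a + -c‖ := norm_add_le _ _
      have h2 : (a + c) + (a + -c) = 2 * a := by ring
      rw [h2, norm_mul] at h1
      simp only [Complex.norm_ofNat] at h1
      rw [hx]
      exact h1
    · have h1 := norm_add_le a c
      have h2 := norm_add_le a (-c)
      rw [norm_neg] at h2
      rw [hc, ← hx] at h1 h2
      linarith
    · have h1 : ‖a + c‖ * ‖a + -c‖ = ‖a ^ 2 - c ^ 2‖ := by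
        rw [← norm_mul]
        congr 1
        ring
      have h2 : ‖a + c‖ ^ 2 + ‖a + -c‖ ^ 2 = 2 * (‖a‖ ^ 2 + ‖c‖ ^ 2) := by
        simp only [← Complex.normSq_eq_norm_sq, Complex.normSq_apply, Complex.add_re, Complex.add_im,
          Complex.neg_re, Complex.neg_im]
        ring
      rw [hc, ← hx] at h2
      nlinarith
  obtain ⟨p1, p2, p3⟩ := hgen b hy.symm
  obtain ⟨q1, q2, q3⟩ := hgen (Complex.I * b) (by rw [norm_mul, Complex.norm_I, one_mul, hy])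
  have hsum : ‖a + b‖ + ‖a + Complex.I * b‖ + ‖a + Complex.I * (Complex.I * b)‖
        + ‖a + Complex.I * (Complex.I * (Complex.I * b))‖ = p + q := by rw [hp, hq]; ring
  rw [hsum]
  rw [← i2, ← hp] at p1 p2 p3
  rw [← i3, ← hq] at q1 q2 q3
  have hsq : (Complex.I * b) ^ 2 = -b ^ 2 := by rw [mul_pow, Complex.I_sq]; ring
  rw [hsq] at q3
  have htri : 2 * x ^ 2 ≤ ‖a ^ 2 - b ^ 2‖ + ‖a ^ 2 - -b ^ 2‖ := by
    have h1 : ‖(a ^ 2 - b ^ 2) + (a ^ 2 - -b ^ 2)‖ ≤ ‖a ^ 2 - b ^ 2‖ + ‖a ^ 2 - -b ^ 2‖ := norm_add_le _ _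
    have h2 : (a ^ 2 - b ^ 2) + (a ^ 2 - -b ^ 2) = 2 * a ^ 2 := by ring
    rw [h2, norm_mul, norm_pow] at h1
    simp only [Complex.norm_ofNat] at h1
    rw [hx]
    exact h1
  rw [← hx, ← hy]
  have hx0 : 0 < x := by rw [hx]; exact hA
  -- (p - 2x)(2(x+y)+2x) ≥ p² - 4x²
  have hP : p ^ 2 - 4 * x ^ 2 ≤ (p - 2 * x) * (4 * x + 2 * y) := by
    nlinarith
  have hQ : q ^ 2 - 4 * x ^ 2 ≤ (q - 2 * x) * (4 * x + 2 * y) := by
    nlinarith
  have hmain : 4 * y ^ 2 ≤ (p + q - 4 * x) * (4 * x + 2 * y) := by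
    nlinarith
  have hd : 0 < 4 * x + 2 * y := by linarith
  have h1 : 4 * y ^ 2 / (4 * x + 2 * y) ≤ p + q - 4 * x := (div_le_iff₀ hd).2 hmain
  have h2 : (2 / 3) * (y ^ 2 / x - y ^ 4 / x ^ 3) ≤ 4 * y ^ 2 / (4 * x + 2 * y) := by
    rw [le_div_iff₀ hd]
    have e : (2 / 3) * (y ^ 2 / x - y ^ 4 / x ^ 3) * (4 * x + 2 * y) =
        (2 / 3) * (y ^ 2 * (x ^ 2 - y ^ 2) * (4 * x + 2 * y)) / x ^ 3 := by
      field_simp
    rw [e, div_le_iff₀ (by positivity)]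
    have k1 : 0 ≤ y ^ 2 := by positivity
    have k2 : (2 / 3) * ((x ^ 2 - y ^ 2) * (4 * x + 2 * y)) ≤ 4 * x ^ 3 := by
      have : 0 ≤ x ^ 3 - x ^ 2 * y + 2 * x * y ^ 2 + y ^ 3 := by
        have m1 : 0 ≤ x * (x - y / 2) ^ 2 := by positivity
        have m2 : 0 ≤ x * y ^ 2 := by positivity
        have m3 : 0 ≤ y ^ 3 := by positivity
        nlinarith
      nlinarith
    nlinarith [mul_le_mul_of_nonneg_left k2 k1]
  linarith

theorem Av_gain (n : ℕ) (w : ℕ → ℂ) (a : ℂ) (b : ℂ) (hw : ∑ j ∈ Finset.range n, ‖w j‖ ^ 2 = 1) :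
    ‖a‖ + (1 / 6) * (‖b‖ ^ 2 / ‖a‖ - 2 * (‖b‖ ^ 4 / ‖a‖ ^ 3)) ≤
      Av n (fun ε => ‖a + b * ∑ j ∈ Finset.range n, ε j * w j‖) := by
  obtain ⟨S, hS⟩ : ∃ S : (ℕ → ℂ) → ℂ, S = fun ε => ∑ j ∈ Finset.range n, ε j * w j := ⟨_, rfl⟩
  have hS' : ∀ ε, ∑ j ∈ Finset.range n, ε j * w j = S ε := fun ε => by rw [hS]
  have r1 := Av_rot n w (fun s => ‖a + b * s‖)
  have r2 := Av_rot n w (fun s => ‖a + b * (Complex.I * s)‖)
  have r3 := Av_rot n w (fun s => ‖a + b * (Complex.I * (Complex.I * s))‖)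
  have m2 := Av_sq n w 0
  have m4 := Av_four n w
  simp only [hS', zero_add, norm_zero] at r1 r2 r3 m2 m4 ⊢
  rw [hw] at m2 m4
  have hfour : ∀ ε, ‖a‖ + (1 / 6) * (‖b * S ε‖ ^ 2 / ‖a‖ - ‖b * S ε‖ ^ 4 / ‖a‖ ^ 3) ≤
      (1 / 4) * (‖a + b * S ε‖ + ‖a + b * (Complex.I * S ε)‖ + ‖a + b * (Complex.I * (Complex.I * S ε))‖
        + ‖a + b * (Complex.I * (Complex.I * (Complex.I * S ε)))‖) := by
    intro ε
    have h := four_point a (b * S ε)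
    have e1 : Complex.I * (b * S ε) = b * (Complex.I * S ε) := by ring
    have e2 : Complex.I * (b * (Complex.I * S ε)) = b * (Complex.I * (Complex.I * S ε)) := by ring
    have e3 : Complex.I * (b * (Complex.I * (Complex.I * S ε))) =
        b * (Complex.I * (Complex.I * (Complex.I * S ε))) := by ring
    rw [e1, e2, e3] at h
    exact h
  have h1 := Av_mono n _ _ hfour
  rw [Av_mul, Av_add n (fun ε => ‖a + b * S ε‖ + ‖a + b * (Complex.I * S ε)‖ +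
    ‖a + b * (Complex.I * (Complex.I * S ε))‖)
    (fun ε => ‖a + b * (Complex.I * (Complex.I * (Complex.I * S ε)))‖),
    Av_add n (fun ε => ‖a + b * S ε‖ + ‖a + b * (Complex.I * S ε)‖)
      (fun ε => ‖a + b * (Complex.I * (Complex.I * S ε))‖),
    Av_add n (fun ε => ‖a + b * S ε‖) (fun ε => ‖a + b * (Complex.I * S ε)‖), ← r3, ← r2, ← r1] at h1
  have h2 : Av n (fun ε => ‖a‖ + (1 / 6) * (‖b * S ε‖ ^ 2 / ‖a‖ - ‖b * S ε‖ ^ 4 / ‖a‖ ^ 3)) =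
      ‖a‖ + (1 / 6) * (‖b‖ ^ 2 / ‖a‖ - ‖b‖ ^ 4 / ‖a‖ ^ 3 * Av n (fun ε => ‖S ε‖ ^ 4)) := by
    have e : (fun ε : ℕ → ℂ => ‖a‖ + (1 / 6) * (‖b * S ε‖ ^ 2 / ‖a‖ - ‖b * S ε‖ ^ 4 / ‖a‖ ^ 3)) =
        fun ε => ‖a‖ + ((1 / 6) * (‖b‖ ^ 2 / ‖a‖) * ‖S ε‖ ^ 2 +
          (-(1 / 6) * (‖b‖ ^ 4 / ‖a‖ ^ 3)) * ‖S ε‖ ^ 4) := by
      funext ε
      rw [norm_mul]
      ring
    rw [e, Av_add n (fun _ => ‖a‖) (fun ε => (1 / 6) * (‖b‖ ^ 2 / ‖a‖) * ‖S ε‖ ^ 2 +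
          (-(1 / 6) * (‖b‖ ^ 4 / ‖a‖ ^ 3)) * ‖S ε‖ ^ 4), Av_const,
      Av_add n (fun ε => (1 / 6) * (‖b‖ ^ 2 / ‖a‖) * ‖S ε‖ ^ 2)
        (fun ε => (-(1 / 6) * (‖b‖ ^ 4 / ‖a‖ ^ 3)) * ‖S ε‖ ^ 4),
      Av_mul n ((1 / 6) * (‖b‖ ^ 2 / ‖a‖)) (fun ε => ‖S ε‖ ^ 2),
      Av_mul n (-(1 / 6) * (‖b‖ ^ 4 / ‖a‖ ^ 3)) (fun ε => ‖S ε‖ ^ 4), m2]
    ring
  rw [h2] at h1
  have h3 : 0 ≤ ‖b‖ ^ 4 / ‖a‖ ^ 3 := by positivity
  have h4 : ‖b‖ ^ 4 / ‖a‖ ^ 3 * Av n (fun ε => ‖S ε‖ ^ 4) ≤ ‖b‖ ^ 4 / ‖a‖ ^ 3 * 2 :=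
    mul_le_mul_of_nonneg_left (by linarith) h3
  linarith

theorem abs_one_add (s : ℝ) : |1 + s| ≤ 1 + s + 2 * s ^ 4 := by
  have h4 : 0 ≤ s ^ 4 := by positivity
  rcases le_or_gt (-1) s with h | h
  · rw [abs_of_nonneg (by linarith)]
    linarith
  · rw [abs_of_neg (by linarith)]
    nlinarith [sq_nonneg (s ^ 2 - 1), sq_nonneg (s + 1), sq_nonneg s]

theorem Av_abs (n : ℕ) (w : ℕ → ℂ) (u t : ℝ) (hw : ∑ j ∈ Finset.range n, ‖w j‖ ^ 2 = 1) :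
    Av n (fun ε => |u + t * u * (∑ j ∈ Finset.range n, ε j * w j).re|) ≤ |u| * (1 + 4 * t ^ 4) := by
  obtain ⟨S, hS⟩ : ∃ S : (ℕ → ℂ) → ℂ, S = fun ε => ∑ j ∈ Finset.range n, ε j * w j := ⟨_, rfl⟩
  have hS' : ∀ ε, ∑ j ∈ Finset.range n, ε j * w j = S ε := fun ε => by rw [hS]
  have m1 := Av_re n w
  have m4 := Av_four n w
  simp only [hS'] at m1 m4 ⊢
  rw [hw] at m4
  have h1 : ∀ ε, |u + t * u * (S ε).re| ≤ |u| * (1 + t * (S ε).re + 2 * t ^ 4 * ‖S ε‖ ^ 4) := by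
    intro ε
    have e : u + t * u * (S ε).re = u * (1 + t * (S ε).re) := by ring
    rw [e, abs_mul]
    refine mul_le_mul_of_nonneg_left ?_ (abs_nonneg u)
    have k1 := abs_one_add (t * (S ε).re)
    have k2 : (t * (S ε).re) ^ 4 ≤ t ^ 4 * ‖S ε‖ ^ 4 := by
      rw [mul_pow]
      refine mul_le_mul_of_nonneg_left ?_ (by positivity)
      have k3 : (S ε).re ^ 4 = |(S ε).re| ^ 4 := by
        rw [← abs_pow, abs_of_nonneg (by positivity)]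
      rw [k3]
      exact pow_le_pow_left₀ (abs_nonneg _) (Complex.abs_re_le_norm _) 4
    linarith
  have h2 := Av_mono n _ _ h1
  refine h2.trans ?_
  rw [Av_mul n |u| (fun ε => 1 + t * (S ε).re + 2 * t ^ 4 * ‖S ε‖ ^ 4),
    Av_add n (fun ε => 1 + t * (S ε).re) (fun ε => 2 * t ^ 4 * ‖S ε‖ ^ 4),
    Av_add n (fun _ => 1) (fun ε => t * (S ε).re), Av_const, Av_mul n t (fun ε => (S ε).re), m1,
    Av_mul n (2 * t ^ 4) (fun ε => ‖S ε‖ ^ 4)]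
  refine mul_le_mul_of_nonneg_left ?_ (abs_nonneg u)
  have h3 : 0 ≤ t ^ 4 := by positivity
  nlinarith

end Pool.Agent.Helper546.RW.A
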