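import Mathlib
import Pool.Agent.Helper546.RW.Defs

set_option autoImplicit false

namespace Pool.Agent.Helper546.RW.C

open MeasureTheory Set Filter Topology
open Pool.Agent.Helper546.RW

theorem kap_eq_zero (N a b j : ℕ) (hj : j ≤ N) (h : j < a ∨ N - j < b) : kap N a b j = 0 := by
  unfold kap
  rcases h with h | h
  · rw [Finset.prod_eq_zero (Finset.mem_range.2 h) (by simp)]
    simp
  · rw [Finset.prod_eq_zero (s := Finset.range b) (Finset.mem_range.2 h)
      (by push_cast [Nat.cast_sub hj]; ring)]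
    simp

theorem kap_mem (N a b j : ℕ) (hj : j ≤ N) (hN : a + b ≤ N) : 0 ≤ kap N a b j ∧ kap N a b j ≤ 1 := by
  by_cases h : j < a ∨ N - j < b
  · rw [kap_eq_zero N a b j hj h]; norm_num
  · push Not at h
    obtain ⟨h1, h2⟩ := h
    have hjN : (j:ℝ) ≤ N := by exact_mod_cast hj
    have h1' : (a:ℝ) ≤ j := by exact_mod_cast h1
    have h2' : (b:ℝ) + j ≤ N := by
      have : b + j ≤ N := by omega
      exact_mod_cast this
    have hnum1 : ∀ i ∈ Finset.range a, 0 ≤ (j:ℝ) - i := by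
      intro i hi
      have : (i:ℝ) ≤ a := by exact_mod_cast (Finset.mem_range.1 hi).le
      linarith
    have hnum2 : ∀ i ∈ Finset.range b, 0 ≤ (N:ℝ) - j - i := by
      intro i hi
      have : (i:ℝ) ≤ b := by exact_mod_cast (Finset.mem_range.1 hi).le
      linarith
    have hden : 0 < ∏ i ∈ Finset.range (a + b), ((N : ℝ) - i) := by
      refine Finset.prod_pos (fun i hi => ?_)
      have : (i:ℝ) + 1 ≤ (a + b : ℕ) := by exact_mod_cast (Finset.mem_range.1 hi)
      have h3 : ((a + b : ℕ) : ℝ) ≤ N := by exact_mod_cast hN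
      linarith
    unfold kap
    refine ⟨div_nonneg (mul_nonneg (Finset.prod_nonneg hnum1) (Finset.prod_nonneg hnum2)) hden.le, ?_⟩
    rw [div_le_one hden, Finset.prod_range_add]
    refine mul_le_mul ?_ ?_ (Finset.prod_nonneg hnum2) ?_
    · refine Finset.prod_le_prod hnum1 (fun i _ => by linarith)
    · refine Finset.prod_le_prod hnum2 (fun i _ => by push_cast; linarith)
    · refine Finset.prod_nonneg (fun i hi => ?_)
      have : (i:ℝ) ≤ a := by exact_mod_cast (Finset.mem_range.1 hi).le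
      linarith

theorem h170_desc (j : ℕ) : ∀ a, a ≤ j → (∏ i ∈ Finset.range a, ((j : ℝ) - i)) * ((j - a).factorial : ℝ) =
    (j.factorial : ℝ) := by
  intro a
  induction a with
  | zero => intro _; simp
  | succ a ih =>
    intro ha
    rw [Finset.prod_range_succ, ← ih (by omega)]
    have h1 : j - a = (j - (a + 1)) + 1 := by omega
    have h2 : ((j - a).factorial : ℝ) = ((j:ℝ) - a) * ((j - (a + 1)).factorial : ℝ) := by
      rw [h1, Nat.factorial_succ]
      push_cast
      have : ((j - (a + 1) : ℕ) : ℝ) = (j:ℝ) - (a + 1) := by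
        rw [Nat.cast_sub ha]; push_cast; ring
      rw [this]; ring
    rw [h2]; ring

theorem h170_key (N a b k : ℕ) (hN : a + b ≤ N) (hk : k ≤ N - (a + b)) :
    (N.choose (a + k) : ℝ) * kap N a b (a + k) = ((N - (a + b)).choose k : ℝ) := by
  set n := N - (a + b) with hn
  have hj : a + k ≤ N := by omega
  have e1 := h170_desc (a + k) a (by omega)
  have e2 := h170_desc (N - (a + k)) b (by omega)
  have e3 := h170_desc N (a + b) hN
  have e4 : a + k - a = k := by omega
  have e5 : N - (a + k) - b = n - k := by omega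
  rw [e4] at e1
  rw [e5] at e2
  rw [← hn] at e3
  have e6 : ((N - (a + k) : ℕ) : ℝ) = (N:ℝ) - ((a + k : ℕ) : ℝ) := Nat.cast_sub hj
  rw [e6] at e2
  have e7 : (N.choose (a + k) : ℝ) * ((a + k).factorial : ℝ) * ((N - (a + k)).factorial : ℝ) = (N.factorial : ℝ) := by
    exact_mod_cast Nat.choose_mul_factorial_mul_factorial hj
  have e8 : (n.choose k : ℝ) * (k.factorial : ℝ) * ((n - k).factorial : ℝ) = (n.factorial : ℝ) := by
    exact_mod_cast Nat.choose_mul_factorial_mul_factorial hk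
  have hden : (∏ i ∈ Finset.range (a + b), ((N : ℝ) - i)) ≠ 0 := by
    refine Finset.prod_ne_zero_iff.2 (fun i hi => ?_)
    have : (i:ℝ) + 1 ≤ (a + b : ℕ) := by exact_mod_cast (Finset.mem_range.1 hi)
    have h3 : ((a + b : ℕ) : ℝ) ≤ N := by exact_mod_cast hN
    have : (0:ℝ) < (N:ℝ) - i := by linarith
    exact this.ne'
  unfold kap
  rw [← mul_div_assoc, div_eq_iff hden]
  have hf1 : (k.factorial : ℝ) ≠ 0 := by exact_mod_cast k.factorial_ne_zero
  have hf2 : ((n - k).factorial : ℝ) ≠ 0 := by exact_mod_cast (n - k).factorial_ne_zero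
  apply mul_right_cancel₀ (mul_ne_zero hf1 hf2)
  set P := ∏ i ∈ Finset.range a, (((a + k : ℕ) : ℝ) - i)
  set Q := ∏ i ∈ Finset.range b, ((N : ℝ) - ((a + k : ℕ) : ℝ) - i)
  set R := ∏ i ∈ Finset.range (a + b), ((N : ℝ) - i)
  calc (N.choose (a + k) : ℝ) * (P * Q) * ((k.factorial : ℝ) * ((n - k).factorial : ℝ))
      = (N.choose (a + k) : ℝ) * (P * (k.factorial : ℝ)) * (Q * ((n - k).factorial : ℝ)) := by ring
    _ = (N.factorial : ℝ) := by rw [e1, e2, e7]
    _ = (n.choose k : ℝ) * R * ((k.factorial : ℝ) * ((n - k).factorial : ℝ)) := by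
        rw [← e3, ← e8]; ring

theorem h170_sumkap (N a b : ℕ) (hN : a + b ≤ N) (x : ℝ) (φ : ℕ → ℝ) :
    ∑ j ∈ Finset.range (N + 1), (N.choose j : ℝ) * x ^ j * (1 - x) ^ (N - j) * (kap N a b j * φ j) =
      x ^ a * (1 - x) ^ b * ∑ k ∈ Finset.range (N - (a + b) + 1),
        ((N - (a + b)).choose k : ℝ) * x ^ k * (1 - x) ^ (N - (a + b) - k) * φ (a + k) := by
  have h1 : ∑ j ∈ Finset.range (N + 1), (N.choose j : ℝ) * x ^ j * (1 - x) ^ (N - j) * (kap N a b j * φ j) =
      ∑ j ∈ Finset.Ico a (N - b + 1), (N.choose j : ℝ) * x ^ j * (1 - x) ^ (N - j) * (kap N a b j * φ j) := by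
    symm
    apply Finset.sum_subset
    · intro j hj
      rw [Finset.mem_Ico] at hj
      rw [Finset.mem_range]
      omega
    · intro j hj hj'
      rw [Finset.mem_range] at hj
      rw [Finset.mem_Ico] at hj'
      rw [kap_eq_zero N a b j (by omega) (by omega)]
      ring
  rw [h1, Finset.sum_Ico_eq_sum_range, Finset.mul_sum]
  have h2 : N - b + 1 - a = N - (a + b) + 1 := by omega
  rw [h2]
  refine Finset.sum_congr rfl (fun k hk => ?_)
  rw [Finset.mem_range] at hk
  have h3 := h170_key N a b k hN (by omega)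
  have h4 : N - (a + k) = b + (N - (a + b) - k) := by omega
  rw [h4, pow_add, pow_add, ← h3]
  ring

theorem h170_var (n : ℕ) (hn : 0 < n) (x : ℝ) :
    ∑ k ∈ Finset.range (n + 1), (n.choose k : ℝ) * x ^ k * (1 - x) ^ (n - k) * (x - (k:ℝ) / n) ^ 2 =
      x * (1 - x) / n := by
  have h := congrArg (Polynomial.eval x) (bernsteinPolynomial.variance (R := ℝ) n)
  simp only [bernsteinPolynomial, Polynomial.eval_finsetSum, Polynomial.eval_mul, Polynomial.eval_pow,
    Polynomial.eval_sub, Polynomial.eval_smul, Polynomial.eval_X, Polynomial.eval_natCast,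
    Polynomial.eval_one, nsmul_eq_mul] at h
  have hn' : (n:ℝ) ≠ 0 := by positivity
  have h2 : ∑ k ∈ Finset.range (n + 1), (n.choose k : ℝ) * x ^ k * (1 - x) ^ (n - k) * (x - (k:ℝ) / n) ^ 2 =
      (∑ k ∈ Finset.range (n + 1), ((n:ℝ) * x - k) ^ 2 * ((n.choose k : ℝ) * x ^ k * (1 - x) ^ (n - k))) / (n:ℝ) ^ 2 := by
    rw [Finset.sum_div]
    refine Finset.sum_congr rfl (fun k _ => ?_)
    field_simp
  rw [h2, h]
  field_simp

/-- uniform variance type estimate -/
theorem kap_est (a b : ℕ) : ∃ C : ℝ, 0 ≤ C ∧ ∀ N : ℕ, a + b < N → ∀ x ∈ Ioo (0 : ℝ) 1,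
    ∑ j ∈ Finset.range (N + 1), (N.choose j : ℝ) * x ^ j * (1 - x) ^ (N - j) *
      ((x ^ a * (1 - x) ^ b - kap N a b j) ^ 2 / (x ^ a * (1 - x) ^ b)) ≤ C / ((N : ℝ) - (a + b)) := by
  -- general step
  have step : ∀ (a b a' b' : ℕ) (y : ℝ → ℝ) (r : ℕ → ℕ → ℝ), a' + b' = a + b + 1 →
      (∀ x ∈ Ioo (0:ℝ) 1, 0 < y x ∧ y x < 1) →
      (∀ x, x ^ a' * (1 - x) ^ b' = y x * (x ^ a * (1 - x) ^ b)) →
      (∀ N j, a + b < N → kap N a' b' j = kap N a b j * r N j) →
      (∀ N k, a + b < N → k ≤ N - (a + b) → ∀ x ∈ Ioo (0:ℝ) 1,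
        (y x - r N (a + k)) ^ 2 = (x - (k:ℝ) / ((N - (a + b) : ℕ) : ℝ)) ^ 2) →
      (∀ x ∈ Ioo (0:ℝ) 1, x * (1 - x) ≤ y x) →
      (∃ C : ℝ, 0 ≤ C ∧ ∀ N : ℕ, a + b < N → ∀ x ∈ Ioo (0 : ℝ) 1,
        ∑ j ∈ Finset.range (N + 1), (N.choose j : ℝ) * x ^ j * (1 - x) ^ (N - j) *
          ((x ^ a * (1 - x) ^ b - kap N a b j) ^ 2 / (x ^ a * (1 - x) ^ b)) ≤ C / ((N : ℝ) - (a + b))) →
      ∃ C : ℝ, 0 ≤ C ∧ ∀ N : ℕ, a' + b' < N → ∀ x ∈ Ioo (0 : ℝ) 1,
        ∑ j ∈ Finset.range (N + 1), (N.choose j : ℝ) * x ^ j * (1 - x) ^ (N - j) *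
          ((x ^ a' * (1 - x) ^ b' - kap N a' b' j) ^ 2 / (x ^ a' * (1 - x) ^ b')) ≤ C / ((N : ℝ) - (a' + b')) := by
    rintro a b a' b' y r hab hy hh hkap hr hxy ⟨C, hC0, hC⟩
    refine ⟨2 * C + 2, by positivity, ?_⟩
    intro N hN x hx
    have hN' : a + b < N := by omega
    have hCx := hC N hN' x hx
    obtain ⟨hx0, hx1⟩ := hx
    have h1x : 0 < 1 - x := by linarith
    obtain ⟨hy0, hy1⟩ := hy x ⟨hx0, hx1⟩
    set h := x ^ a * (1 - x) ^ b with hhdef
    have hh0 : 0 < h := by positivity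
    set n := N - (a + b) with hn
    have hn0 : 0 < n := by omega
    have hnr : (n:ℝ) = (N:ℝ) - (a + b) := by
      rw [hn, Nat.cast_sub hN'.le]; push_cast; ring
    rw [hh x]
    have hterm : ∀ j ∈ Finset.range (N + 1), (N.choose j : ℝ) * x ^ j * (1 - x) ^ (N - j) *
          ((y x * h - kap N a' b' j) ^ 2 / (y x * h)) ≤
        2 * ((N.choose j : ℝ) * x ^ j * (1 - x) ^ (N - j) * ((h - kap N a b j) ^ 2 / h)) +
        2 / (y x * h) * ((N.choose j : ℝ) * x ^ j * (1 - x) ^ (N - j) * (kap N a b j * (y x - r N j) ^ 2)) := by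
      intro j hj
      rw [Finset.mem_range] at hj
      have hk := kap_mem N a b j (by omega) hN'.le
      rw [hkap N j hN']
      set κ := kap N a b j
      set w := (N.choose j : ℝ) * x ^ j * (1 - x) ^ (N - j) with hw
      have hw0 : 0 ≤ w := by positivity
      have e1 : (y x * h - κ * r N j) ^ 2 / (y x * h) ≤ 2 * ((h - κ) ^ 2 / h) +
          2 / (y x * h) * (κ * (y x - r N j) ^ 2) := by
        have e2 : (y x * h - κ * r N j) = y x * (h - κ) + κ * (y x - r N j) := by ring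
        have e3 : (y x * (h - κ) + κ * (y x - r N j)) ^ 2 ≤ 2 * (y x * (h - κ)) ^ 2 + 2 * (κ * (y x - r N j)) ^ 2 := by
          nlinarith [sq_nonneg (y x * (h - κ) - κ * (y x - r N j))]
        have e4 : (κ * (y x - r N j)) ^ 2 ≤ κ * (y x - r N j) ^ 2 := by
          have : κ ^ 2 ≤ κ := by nlinarith
          rw [mul_pow]
          exact mul_le_mul_of_nonneg_right this (sq_nonneg _)
        have e5 : (y x * (h - κ)) ^ 2 ≤ y x * (h - κ) ^ 2 := by
          have : (y x) ^ 2 ≤ y x := by nlinarith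
          rw [mul_pow]
          exact mul_le_mul_of_nonneg_right this (sq_nonneg _)
        rw [e2, div_le_iff₀ (by positivity)]
        have e6 : (2 * ((h - κ) ^ 2 / h) + 2 / (y x * h) * (κ * (y x - r N j) ^ 2)) * (y x * h) =
          2 * (y x * (h - κ) ^ 2) + 2 * (κ * (y x - r N j) ^ 2) := by
          field_simp
        rw [e6]
        linarith
      calc w * ((y x * h - κ * r N j) ^ 2 / (y x * h)) ≤ w * (2 * ((h - κ) ^ 2 / h) +
          2 / (y x * h) * (κ * (y x - r N j) ^ 2)) := mul_le_mul_of_nonneg_left e1 hw0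
        _ = _ := by ring
    have hsum := Finset.sum_le_sum hterm
    rw [Finset.sum_add_distrib, ← Finset.mul_sum, ← Finset.mul_sum,
      h170_sumkap N a b hN'.le x (fun j => (y x - r N j) ^ 2)] at hsum
    have hv : ∑ k ∈ Finset.range (N - (a + b) + 1),
        ((N - (a + b)).choose k : ℝ) * x ^ k * (1 - x) ^ (N - (a + b) - k) * (y x - r N (a + k)) ^ 2 =
        x * (1 - x) / n := by
      rw [← hn, ← h170_var n hn0 x]
      refine Finset.sum_congr rfl (fun k hk => ?_)
      rw [Finset.mem_range] at hk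
      rw [hr N k hN' (by omega) x ⟨hx0, hx1⟩]
    rw [hv] at hsum
    refine hsum.trans ?_
    have hn1 : (0:ℝ) < n := by exact_mod_cast hn0
    have hlast : 2 / (y x * h) * (x ^ a * (1 - x) ^ b * (x * (1 - x) / n)) ≤ 2 / n := by
      rw [← hhdef]
      have : 2 / (y x * h) * (h * (x * (1 - x) / n)) = 2 / n * (x * (1 - x) / y x) := by
        field_simp
      rw [this]
      have h5 : x * (1 - x) / y x ≤ 1 := by
        rw [div_le_one hy0]; exact hxy x ⟨hx0, hx1⟩
      calc 2 / (n:ℝ) * (x * (1 - x) / y x) ≤ 2 / n * 1 := mul_le_mul_of_nonneg_left h5 (by positivity)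
        _ = 2 / n := mul_one _
    rw [← hnr] at hCx
    have hfin : 2 * (C / (n:ℝ)) + 2 / n ≤ (2 * C + 2) / ((N:ℝ) - (a' + b')) := by
      have e7 : (N:ℝ) - (a' + b') = n - 1 := by
        have : ((a' + b' : ℕ) : ℝ) = a + b + 1 := by rw [hab]; push_cast; ring
        push_cast at this
        rw [this, hnr]; ring
      have e8 : (0:ℝ) < (n:ℝ) - 1 := by
        have : 2 ≤ n := by omega
        have : (2:ℝ) ≤ n := by exact_mod_cast this
        linarith
      rw [e7]
      have e9 : 2 * (C / (n:ℝ)) + 2 / n = (2 * C + 2) / n := by ring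
      rw [e9]
      exact div_le_div_of_nonneg_left (by positivity) e8 (by linarith)
    have := mul_le_mul_of_nonneg_left hCx (show (0:ℝ) ≤ 2 by norm_num)
    linarith
  -- induction on b with a = 0
  have hb : ∀ b : ℕ, ∃ C : ℝ, 0 ≤ C ∧ ∀ N : ℕ, 0 + b < N → ∀ x ∈ Ioo (0 : ℝ) 1,
    ∑ j ∈ Finset.range (N + 1), (N.choose j : ℝ) * x ^ j * (1 - x) ^ (N - j) *
      ((x ^ 0 * (1 - x) ^ b - kap N 0 b j) ^ 2 / (x ^ 0 * (1 - x) ^ b)) ≤ C / ((N : ℝ) - ((0 : ℕ) + b)) := by
    intro b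
    induction b with
    | zero =>
      refine ⟨0, le_rfl, ?_⟩
      intro N hN x hx
      simp [kap]
    | succ b ih =>
      refine step 0 b 0 (b + 1) (fun x => 1 - x) (fun N j => ((N:ℝ) - j - b) / ((N:ℝ) - ((0 + b : ℕ) : ℝ))) (by omega) ?_ ?_ ?_ ?_ ?_ ih
      · intro x hx; exact ⟨by linarith [hx.2], by linarith [hx.1]⟩
      · intro x; ring
      · intro N j hN
        unfold kap
        rw [← add_assoc, Finset.prod_range_succ, Finset.prod_range_succ]
        rw [← mul_assoc, mul_div_mul_comm]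
      · intro N k hN hk x hx
        have hNb : (0:ℝ) < (N:ℝ) - ((0 + b : ℕ) : ℝ) := by
          have : ((0 + b : ℕ) : ℝ) < N := by exact_mod_cast hN
          linarith
        have e : ((N - (0 + b) : ℕ) : ℝ) = (N:ℝ) - ((0 + b : ℕ) : ℝ) := Nat.cast_sub hN.le
        rw [e]
        have e2 : 1 - x - ((N:ℝ) - ((0 + k : ℕ) : ℝ) - b) / ((N:ℝ) - ((0 + b : ℕ) : ℝ)) =
          - (x - (k:ℝ) / ((N:ℝ) - ((0 + b : ℕ) : ℝ))) := by
          field_simp
          push_cast
          ring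
        rw [e2]; ring
      · intro x hx
        have := hx.1; have := hx.2
        nlinarith
  induction a with
  | zero =>
    exact hb b
  | succ a ih =>
    refine step a b (a + 1) b (fun x => x) (fun N j => ((j:ℝ) - a) / ((N:ℝ) - ((a + b : ℕ) : ℝ))) (by omega) ?_ ?_ ?_ ?_ ?_ ih
    · intro x hx; exact ⟨hx.1, hx.2⟩
    · intro x; ring
    · intro N j hN
      unfold kap
      rw [show a + 1 + b = a + b + 1 by ring, Finset.prod_range_succ, Finset.prod_range_succ]
      field_simp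
    · intro N k hN hk x hx
      have hNb : (0:ℝ) < (N:ℝ) - ((a + b : ℕ) : ℝ) := by
        have : ((a + b : ℕ) : ℝ) < N := by exact_mod_cast hN
        linarith
      have e : ((N - (a + b) : ℕ) : ℝ) = (N:ℝ) - ((a + b : ℕ) : ℝ) := Nat.cast_sub hN.le
      rw [e]
      push_cast
      ring
    · intro x hx
      have := hx.1; have := hx.2
      nlinarith

end Pool.Agent.Helper546.RW.C
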