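import Mathlib
import Pool.Agent.Helper546.RW.Defs
import Pool.Agent.Helper546.RW.A
import Pool.Agent.Helper546.RW.C

set_option autoImplicit false

namespace Pool.Agent.Helper546.RW.D

open MeasureTheory Set Filter Topology
open scoped ENNReal NNReal
open Pool.Agent.Helper546.RW
open Pool.Agent.Helper546.RW.A
open Pool.Agent.Helper546.RW.C

theorem eval_Wp (N : ℕ) (ε : ℕ → ℂ) (z : Fin 2 → ℂ) :
    MvPolynomial.eval z (Wp N ε) = ∑ j ∈ Finset.range (N + 1), ε j * ((Real.sqrt (N.choose j) : ℝ) * z 0 ^ j * z 1 ^ (N - j)) := by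
  unfold Wp
  rw [map_sum]
  refine Finset.sum_congr rfl fun j _ => ?_
  simp only [map_mul, map_pow, MvPolynomial.eval_C, MvPolynomial.eval_X]
  ring

theorem norm_sq_w (N j : ℕ) (z : Fin 2 → ℂ) :
    ‖((Real.sqrt (N.choose j) : ℝ) : ℂ) * z 0 ^ j * z 1 ^ (N - j)‖ ^ 2 =
      (N.choose j : ℝ) * (‖z 0‖ ^ 2) ^ j * (‖z 1‖ ^ 2) ^ (N - j) := by
  rw [norm_mul, norm_mul, norm_pow, norm_pow, mul_pow, mul_pow, Complex.norm_real,
    Real.norm_eq_abs, sq_abs, Real.sq_sqrt (by positivity)]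
  rw [← pow_mul, ← pow_mul, ← pow_mul, ← pow_mul, mul_comm j 2, mul_comm (N - j) 2]

theorem sum_sq_one (N : ℕ) (z : Fin 2 → ℂ) (hz : ‖z 0‖ ^ 2 + ‖z 1‖ ^ 2 = 1) :
    ∑ j ∈ Finset.range (N + 1), ‖((Real.sqrt (N.choose j) : ℝ) : ℂ) * z 0 ^ j * z 1 ^ (N - j)‖ ^ 2 = 1 := by
  have h := add_pow (‖z 0‖ ^ 2) (‖z 1‖ ^ 2) N
  rw [hz, one_pow] at h
  rw [h]
  refine Finset.sum_congr rfl fun j _ => ?_
  rw [norm_sq_w]
  ring

theorem support_le (p : MvPolynomial (Fin 2) ℂ) {α : Fin 2 →₀ ℕ} (hα : α ∈ p.support) :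
    α 0 + α 1 ≤ p.totalDegree := by
  have h := MvPolynomial.le_totalDegree hα
  rw [Finsupp.sum_fintype _ _ (fun _ => rfl), Fin.sum_univ_two] at h
  exact h

theorem constantCoeff_Qp (p : MvPolynomial (Fin 2) ℂ) (N : ℕ) (hN : p.totalDegree < N) (ε : ℕ → ℂ) :
    MvPolynomial.constantCoeff (Qp p N ε) = 0 := by
  have h1 : MvPolynomial.constantCoeff (Wp N ε) = 0 := by
    unfold Wp
    rw [map_sum]
    refine Finset.sum_eq_zero fun j hj => ?_
    simp only [map_mul, map_pow, MvPolynomial.constantCoeff_C, MvPolynomial.constantCoeff_X]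
    have hj' := Finset.mem_range.1 hj
    by_cases h0 : j = 0
    · have : N - j ≠ 0 := by omega
      rw [zero_pow this, mul_zero]
    · rw [zero_pow h0, mul_zero, zero_mul]
  unfold Qp
  rw [map_add, map_mul, map_mul, map_mul, h1, mul_zero, mul_zero, zero_add, map_sum]
  refine mul_eq_zero_of_right _ (Finset.sum_eq_zero fun α hα => ?_)
  have hle := support_le p hα
  rw [map_sum]
  refine Finset.sum_eq_zero fun j hj => ?_
  simp only [map_mul, map_pow, MvPolynomial.constantCoeff_C, MvPolynomial.constantCoeff_X]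
  have hj' := Finset.mem_range.1 hj
  by_cases h0 : j - α 0 = 0
  · have : N - j - α 1 ≠ 0 := by omega
    rw [zero_pow this, mul_zero]
  · rw [zero_pow h0, mul_zero, zero_mul]

theorem Av_sum {ι : Type} (n : ℕ) (s : Finset ι) (F : ι → (ℕ → ℂ) → ℝ) :
    Av n (fun ε => ∑ α ∈ s, F α ε) = ∑ α ∈ s, Av n (F α) := by
  classical
  induction s using Finset.induction_on with
  | empty =>
    simp only [Finset.sum_empty]
    have := Av_mul n 0 (fun _ => 0)
    simpa using this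
  | insert a s ha ih =>
    simp only [Finset.sum_insert ha]
    rw [Av_add, ih]

theorem Qp_est (p : MvPolynomial (Fin 2) ℂ) : ∃ C : ℝ, 0 ≤ C ∧ ∀ N : ℕ, p.totalDegree < N → ∀ z : Fin 2 → ℂ,
    ‖z 0‖ ^ 2 + ‖z 1‖ ^ 2 = 1 → z 0 ≠ 0 → z 1 ≠ 0 →
    Av (N + 1) (fun ε => ‖MvPolynomial.eval z (Qp p N ε) -
      ((MvPolynomial.eval z p).re : ℂ) * MvPolynomial.eval z (Wp N ε)‖ ^ 2) ≤ C / ((N : ℝ) - p.totalDegree) := by
  choose Cf hCf0 hCf using kap_est
  refine ⟨(p.support.card : ℝ) * ∑ α ∈ p.support, ‖MvPolynomial.coeff α p‖ ^ 2 * Cf (α 0) (α 1),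
    by
      refine mul_nonneg (by positivity) (Finset.sum_nonneg fun α _ => ?_)
      exact mul_nonneg (by positivity) (hCf0 _ _), ?_⟩
  intro N hN z hz hz0 hz1
  have hx0 : 0 < ‖z 0‖ ^ 2 := by positivity
  have hx1 : 0 < ‖z 1‖ ^ 2 := by positivity
  have hx1' : 1 - ‖z 0‖ ^ 2 = ‖z 1‖ ^ 2 := by linarith
  set w : ℕ → ℂ := fun j => ((Real.sqrt (N.choose j) : ℝ) : ℂ) * z 0 ^ j * z 1 ^ (N - j) with hw
  set M : (Fin 2 →₀ ℕ) → ℂ := fun α => z 0 ^ (α 0) * z 1 ^ (α 1) with hM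
  have hM0 : ∀ α, M α ≠ 0 := fun α => mul_ne_zero (pow_ne_zero _ hz0) (pow_ne_zero _ hz1)
  have hMn : ∀ α, ‖M α‖ ^ 2 = (‖z 0‖ ^ 2) ^ (α 0) * (‖z 1‖ ^ 2) ^ (α 1) := by
    intro α
    rw [hM]
    simp only [norm_mul, norm_pow, mul_pow]
    rw [← pow_mul, ← pow_mul, ← pow_mul, ← pow_mul, mul_comm (α 0) 2, mul_comm (α 1) 2]
  have hP : MvPolynomial.eval z p = ∑ α ∈ p.support, MvPolynomial.coeff α p * M α := by
    rw [MvPolynomial.eval_eq']
    refine Finset.sum_congr rfl fun α _ => ?_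
    rw [Fin.prod_univ_two]
  -- the second part of `Qp`
  have hQ : ∀ ε : ℕ → ℂ, MvPolynomial.eval z (Qp p N ε) =
      1 / 2 * (MvPolynomial.eval z p * MvPolynomial.eval z (Wp N ε)) +
      1 / 2 * ∑ α ∈ p.support, (starRingEnd ℂ) (MvPolynomial.coeff α p) *
        ∑ j ∈ Finset.range (N + 1), ε j * (w j * ((kap N (α 0) (α 1) j : ℝ) / M α)) := by
    intro ε
    unfold Qp
    simp only [map_add, map_mul, MvPolynomial.eval_C, map_sum, map_pow, MvPolynomial.eval_X]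
    congr 2
    refine Finset.sum_congr rfl fun α _ => ?_
    rw [Finset.mul_sum]
    refine Finset.sum_congr rfl fun j hj => ?_
    have hjN : j ≤ N := by have := Finset.mem_range.1 hj; omega
    by_cases hk : kap N (α 0) (α 1) j = 0
    · rw [hk]; simp
    · have h1 : ¬ (j < α 0 ∨ N - j < α 1) := fun h => hk (kap_eq_zero N _ _ j hjN h)
      push Not at h1
      have e0 : z 0 ^ j = z 0 ^ (j - α 0) * z 0 ^ (α 0) := by
        rw [← pow_add]; congr 1; omega
      have e1 : z 1 ^ (N - j) = z 1 ^ (N - j - α 1) * z 1 ^ (α 1) := by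
        rw [← pow_add]; congr 1; omega
      have h2 : w j * ((kap N (α 0) (α 1) j : ℝ) / M α) =
          ((Real.sqrt (N.choose j) : ℝ) : ℂ) * (kap N (α 0) (α 1) j : ℝ) *
            (z 0 ^ (j - α 0) * z 1 ^ (N - j - α 1)) := by
        rw [mul_div_assoc', div_eq_iff (hM0 α), hw, hM]
        simp only []
        rw [e0, e1]
        ring
      rw [h2]
      ring
  have hconj : (((MvPolynomial.eval z p).re : ℝ) : ℂ) = 1 / 2 * (MvPolynomial.eval z p) +
      1 / 2 * ∑ α ∈ p.support, (starRingEnd ℂ) (MvPolynomial.coeff α p) * (starRingEnd ℂ) (M α) := by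
    have h1 : ∑ α ∈ p.support, (starRingEnd ℂ) (MvPolynomial.coeff α p) * (starRingEnd ℂ) (M α) =
        (starRingEnd ℂ) (MvPolynomial.eval z p) := by
      rw [hP, map_sum]
      refine Finset.sum_congr rfl fun α _ => ?_
      rw [map_mul (starRingEnd ℂ) (MvPolynomial.coeff α p) (M α)]
    rw [h1]
    have h2 := Complex.add_conj (MvPolynomial.eval z p)
    push_cast at h2
    linear_combination (-1 / 2 : ℂ) * h2
  -- the difference
  set V : (Fin 2 →₀ ℕ) → (ℕ → ℂ) → ℂ := fun α ε => ∑ j ∈ Finset.range (N + 1),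
    ε j * (w j * ((kap N (α 0) (α 1) j : ℝ) / M α - (starRingEnd ℂ) (M α))) with hV
  have hdiff : ∀ ε : ℕ → ℂ, MvPolynomial.eval z (Qp p N ε) -
      ((MvPolynomial.eval z p).re : ℂ) * MvPolynomial.eval z (Wp N ε) =
      1 / 2 * ∑ α ∈ p.support, (starRingEnd ℂ) (MvPolynomial.coeff α p) * V α ε := by
    intro ε
    have hW : MvPolynomial.eval z (Wp N ε) = ∑ j ∈ Finset.range (N + 1), ε j * w j := eval_Wp N ε z
    have hVe : ∀ α, V α ε = ∑ j ∈ Finset.range (N + 1), ε j * (w j * ((kap N (α 0) (α 1) j : ℝ) / M α)) -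
        (starRingEnd ℂ) (M α) * MvPolynomial.eval z (Wp N ε) := by
      intro α
      rw [hV, hW, Finset.mul_sum, ← Finset.sum_sub_distrib]
      refine Finset.sum_congr rfl fun j _ => ?_
      ring
    rw [hQ, hconj]
    simp only [hVe, mul_sub]
    rw [Finset.sum_sub_distrib, mul_sub, add_mul]
    have h3 : ∑ α ∈ p.support, (starRingEnd ℂ) (MvPolynomial.coeff α p) *
        ((starRingEnd ℂ) (M α) * MvPolynomial.eval z (Wp N ε)) =
        (∑ α ∈ p.support, (starRingEnd ℂ) (MvPolynomial.coeff α p) * (starRingEnd ℂ) (M α)) *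
          MvPolynomial.eval z (Wp N ε) := by
      rw [Finset.sum_mul]
      refine Finset.sum_congr rfl fun α _ => ?_
      ring
    rw [h3]
    ring
  -- pointwise estimate
  have hpt : ∀ ε : ℕ → ℂ, ‖MvPolynomial.eval z (Qp p N ε) -
      ((MvPolynomial.eval z p).re : ℂ) * MvPolynomial.eval z (Wp N ε)‖ ^ 2 ≤
      (p.support.card : ℝ) * ∑ α ∈ p.support, ‖MvPolynomial.coeff α p‖ ^ 2 * ‖V α ε‖ ^ 2 := by
    intro ε
    rw [hdiff]
    have h1 : ‖(1 / 2 : ℂ) * ∑ α ∈ p.support, (starRingEnd ℂ) (MvPolynomial.coeff α p) * V α ε‖ ≤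
        ∑ α ∈ p.support, ‖MvPolynomial.coeff α p‖ * ‖V α ε‖ := by
      rw [norm_mul]
      have h2 : ‖∑ α ∈ p.support, (starRingEnd ℂ) (MvPolynomial.coeff α p) * V α ε‖ ≤
          ∑ α ∈ p.support, ‖MvPolynomial.coeff α p‖ * ‖V α ε‖ := by
        refine (norm_sum_le _ _).trans (le_of_eq ?_)
        refine Finset.sum_congr rfl fun α _ => ?_
        rw [norm_mul, RCLike.norm_conj]
      have h3 : ‖(1 / 2 : ℂ)‖ = 1 / 2 := by norm_num
      rw [h3]
      have h4 : 0 ≤ ‖∑ α ∈ p.support, (starRingEnd ℂ) (MvPolynomial.coeff α p) * V α ε‖ := norm_nonneg _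
      linarith
    calc ‖(1 / 2 : ℂ) * ∑ α ∈ p.support, (starRingEnd ℂ) (MvPolynomial.coeff α p) * V α ε‖ ^ 2
        ≤ (∑ α ∈ p.support, ‖MvPolynomial.coeff α p‖ * ‖V α ε‖) ^ 2 := by gcongr
      _ ≤ (p.support.card : ℝ) * ∑ α ∈ p.support, (‖MvPolynomial.coeff α p‖ * ‖V α ε‖) ^ 2 :=
          sq_sum_le_card_mul_sum_sq
      _ = _ := by
          congr 1
          refine Finset.sum_congr rfl fun α _ => ?_
          rw [mul_pow]
  have hND : (0 : ℝ) < (N : ℝ) - p.totalDegree := by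
    have : (p.totalDegree : ℝ) < N := by exact_mod_cast hN
    linarith
  have hAvV : ∀ α ∈ p.support, Av (N + 1) (fun ε => ‖V α ε‖ ^ 2) ≤
      Cf (α 0) (α 1) / ((N : ℝ) - p.totalDegree) := by
    intro α hα
    have hle := support_le p hα
    have h1 := Av_sq (N + 1) (fun j => w j * ((kap N (α 0) (α 1) j : ℝ) / M α - (starRingEnd ℂ) (M α))) 0
    simp only [zero_add, norm_zero] at h1
    rw [zero_pow two_ne_zero, zero_add] at h1
    rw [hV]
    simp only []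
    rw [h1]
    have h2 := hCf (α 0) (α 1) N (by omega) (‖z 0‖ ^ 2) ⟨hx0, by linarith⟩
    rw [hx1'] at h2
    have h3 : ∑ j ∈ Finset.range (N + 1), ‖w j * ((kap N (α 0) (α 1) j : ℝ) / M α -
        (starRingEnd ℂ) (M α))‖ ^ 2 =
        ∑ j ∈ Finset.range (N + 1), (N.choose j : ℝ) * (‖z 0‖ ^ 2) ^ j * (‖z 1‖ ^ 2) ^ (N - j) *
        (((‖z 0‖ ^ 2) ^ (α 0) * (‖z 1‖ ^ 2) ^ (α 1) - kap N (α 0) (α 1) j) ^ 2 /
          ((‖z 0‖ ^ 2) ^ (α 0) * (‖z 1‖ ^ 2) ^ (α 1))) := by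
      refine Finset.sum_congr rfl fun j _ => ?_
      rw [norm_mul, mul_pow, norm_sq_w, ← hMn α]
      congr 1
      have h4 : ((kap N (α 0) (α 1) j : ℝ) : ℂ) / M α - (starRingEnd ℂ) (M α) =
          ((kap N (α 0) (α 1) j - ‖M α‖ ^ 2 : ℝ) : ℂ) / M α := by
        rw [eq_div_iff (hM0 α), sub_mul, div_mul_cancel₀ _ (hM0 α), mul_comm, Complex.mul_conj,
          Complex.normSq_eq_norm_sq]
        push_cast; ring
      rw [h4, norm_div, div_pow, Complex.norm_real, Real.norm_eq_abs, sq_abs]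
      congr 1
      ring
    rw [h3]
    refine h2.trans ?_
    apply div_le_div_of_nonneg_left (hCf0 _ _) hND
    have : ((α 0 + α 1 : ℕ) : ℝ) ≤ p.totalDegree := by exact_mod_cast hle
    push_cast at this
    linarith
  calc Av (N + 1) (fun ε => ‖MvPolynomial.eval z (Qp p N ε) -
      ((MvPolynomial.eval z p).re : ℂ) * MvPolynomial.eval z (Wp N ε)‖ ^ 2)
      ≤ Av (N + 1) (fun ε => (p.support.card : ℝ) * ∑ α ∈ p.support,
        ‖MvPolynomial.coeff α p‖ ^ 2 * ‖V α ε‖ ^ 2) := Av_mono _ _ _ hpt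
    _ = (p.support.card : ℝ) * ∑ α ∈ p.support, ‖MvPolynomial.coeff α p‖ ^ 2 *
        Av (N + 1) (fun ε => ‖V α ε‖ ^ 2) := by
        rw [Av_mul, Av_sum]
        congr 1
        refine Finset.sum_congr rfl fun α _ => ?_
        rw [Av_mul]
    _ ≤ (p.support.card : ℝ) * ∑ α ∈ p.support, ‖MvPolynomial.coeff α p‖ ^ 2 *
        (Cf (α 0) (α 1) / ((N : ℝ) - p.totalDegree)) := by
        gcongr with α hα
        exact hAvV α hα
    _ = _ := by
        rw [mul_div_assoc, Finset.sum_div]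
        congr 1
        refine Finset.sum_congr rfl fun α _ => ?_
        rw [mul_div_assoc]

end Pool.Agent.Helper546.RW.D
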