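import Mathlib
import Pool.Agent.Helper546.RW.Defs
import Pool.Agent.Helper546.RW.A
import Pool.Agent.Helper546.RW.D

set_option autoImplicit false

namespace Pool.Agent.Helper546.RW.E

open MeasureTheory Set Filter Topology
open scoped ENNReal NNReal
open Pool.Agent.Helper546.RW
open Pool.Agent.Helper546.RW.A
open Pool.Agent.Helper546.RW.D

theorem poly_integrable {X : Type} [MeasurableSpace X] (μ : Measure X) [IsFiniteMeasure μ]
    (π : X → Fin 2 → ℂ) (hπ : Measurable π) (hs : ∀ᵐ x ∂μ, ‖π x 0‖ ^ 2 + ‖π x 1‖ ^ 2 = 1)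
    (p : MvPolynomial (Fin 2) ℂ) : Integrable (fun x => MvPolynomial.eval (π x) p) μ := by
  have hmeas : Measurable (fun x => MvPolynomial.eval (π x) p) :=
    (MvPolynomial.continuous_eval p).measurable.comp hπ
  refine Integrable.of_bound hmeas.aestronglyMeasurable
    (∑ α ∈ p.support, ‖MvPolynomial.coeff α p‖) ?_
  filter_upwards [hs] with x hx
  have hz : ∀ i, ‖π x i‖ ≤ 1 := by
    intro i
    fin_cases i
    · have h1 : ‖π x 0‖ ^ 2 ≤ 1 := by nlinarith [sq_nonneg ‖π x 1‖]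
      exact (sq_le_one_iff₀ (norm_nonneg _)).1 h1
    · have h1 : ‖π x 1‖ ^ 2 ≤ 1 := by nlinarith [sq_nonneg ‖π x 0‖]
      exact (sq_le_one_iff₀ (norm_nonneg _)).1 h1
  rw [MvPolynomial.eval_eq']
  refine (norm_sum_le _ _).trans (Finset.sum_le_sum fun α _ => ?_)
  rw [norm_mul, norm_prod]
  refine mul_le_of_le_one_right (norm_nonneg _) ?_
  refine Finset.prod_le_one (fun i _ => norm_nonneg _) fun i _ => ?_
  rw [norm_pow]
  exact pow_le_one₀ (norm_nonneg _) (hz i)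

/-- pointwise lower bound -/
theorem ptwise (p : MvPolynomial (Fin 2) ℂ) : ∃ C : ℝ, 0 ≤ C ∧ ∀ N : ℕ, p.totalDegree < N → ∀ z : Fin 2 → ℂ,
    ‖z 0‖ ^ 2 + ‖z 1‖ ^ 2 = 1 → z 0 ≠ 0 → z 1 ≠ 0 → ∀ t s l : ℝ, 0 ≤ t → 0 ≤ s → 0 < l →
    ‖MvPolynomial.eval z p‖ - s * |(MvPolynomial.eval z p).re|
      + (t ^ 2 / 6) * ((MvPolynomial.eval z p).re ^ 2 / ‖MvPolynomial.eval z p‖)
      - t ^ 4 * (1 / 3 + 4 * s) * |(MvPolynomial.eval z p).re|
      - (1 + s) * t * (l / 2 + C / (2 * l * ((N : ℝ) - p.totalDegree)))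
    ≤ Av (N + 1) (fun ε => ‖MvPolynomial.eval z (p + MvPolynomial.C (t : ℂ) * Qp p N ε)‖
        - s * |(MvPolynomial.eval z (p + MvPolynomial.C (t : ℂ) * Qp p N ε)).re|) := by
  obtain ⟨C, hC0, hC⟩ := Qp_est p
  refine ⟨C, hC0, ?_⟩
  intro N hN z hz hz0 hz1 t s l ht hs hl
  have hD := hC N hN z hz hz0 hz1
  generalize hP : MvPolynomial.eval z p = P at *
  generalize hu : P.re = u at *
  obtain ⟨w, hw⟩ : ∃ w : ℕ → ℂ, w = fun j => ((Real.sqrt (N.choose j) : ℝ) : ℂ) * z 0 ^ j * z 1 ^ (N - j) :=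
    ⟨_, rfl⟩
  have hw1 : ∑ j ∈ Finset.range (N + 1), ‖w j‖ ^ 2 = 1 := by
    rw [hw]; exact sum_sq_one N z hz
  have hW : ∀ ε : ℕ → ℂ, MvPolynomial.eval z (Wp N ε) = ∑ j ∈ Finset.range (N + 1), ε j * w j := by
    intro ε; rw [hw]; exact eval_Wp N ε z
  have hgain := Av_gain (N + 1) w P ((t * u : ℝ) : ℂ) hw1
  have habs := Av_abs (N + 1) w u t hw1
  obtain ⟨A1, hA1⟩ : ∃ A1 : (ℕ → ℂ) → ℝ, A1 = fun ε => ‖P + ((t * u : ℝ) : ℂ) * ∑ j ∈ Finset.range (N + 1), ε j * w j‖ :=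
    ⟨_, rfl⟩
  obtain ⟨A2, hA2⟩ : ∃ A2 : (ℕ → ℂ) → ℝ, A2 = fun ε => |u + t * u * (∑ j ∈ Finset.range (N + 1), ε j * w j).re| :=
    ⟨_, rfl⟩
  obtain ⟨A3, hA3⟩ : ∃ A3 : (ℕ → ℂ) → ℝ, A3 = fun ε => ‖MvPolynomial.eval z (Qp p N ε) - (u : ℂ) * MvPolynomial.eval z (Wp N ε)‖ ^ 2 :=
    ⟨_, rfl⟩
  rw [← hA1] at hgain
  rw [← hA2] at habs
  rw [← hA3] at hD
  have hlow : ∀ ε, (A1 ε + (-s) * A2 ε) + ((-((1 + s) * t / (2 * l))) * A3 ε + (-((1 + s) * t * (l / 2)))) ≤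
      ‖MvPolynomial.eval z (p + MvPolynomial.C (t : ℂ) * Qp p N ε)‖
        - s * |(MvPolynomial.eval z (p + MvPolynomial.C (t : ℂ) * Qp p N ε)).re| := by
    intro ε
    rw [hA1, hA2, hA3]
    simp only [hW]
    generalize hQ : MvPolynomial.eval z (Qp p N ε) = Q
    generalize hWd : ∑ j ∈ Finset.range (N + 1), ε j * w j = W
    obtain ⟨D, hDd⟩ : ∃ D : ℂ, D = Q - (u : ℂ) * W := ⟨_, rfl⟩
    have hev : MvPolynomial.eval z (p + MvPolynomial.C (t : ℂ) * Qp p N ε)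
        = (P + ((t * u : ℝ) : ℂ) * W) + (t : ℂ) * D := by
      rw [map_add, map_mul, MvPolynomial.eval_C, hP, hQ, hDd]
      push_cast; ring
    rw [hev, ← hDd]
    have h1 : ‖P + ((t * u : ℝ) : ℂ) * W‖ - t * ‖D‖ ≤ ‖(P + ((t * u : ℝ) : ℂ) * W) + (t : ℂ) * D‖ := by
      have h := norm_sub_le ((P + ((t * u : ℝ) : ℂ) * W) + (t : ℂ) * D) ((t : ℂ) * D)
      rw [add_sub_cancel_right, norm_mul, Complex.norm_real, Real.norm_of_nonneg ht] at h
      linarith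
    have h2 : |((P + ((t * u : ℝ) : ℂ) * W) + (t : ℂ) * D).re| ≤ |u + t * u * W.re| + t * ‖D‖ := by
      have e : ((P + ((t * u : ℝ) : ℂ) * W) + (t : ℂ) * D).re = (u + t * u * W.re) + t * D.re := by
        rw [Complex.add_re, Complex.add_re, Complex.re_ofReal_mul, Complex.re_ofReal_mul, hu]
      rw [e]
      refine (abs_add_le _ _).trans ?_
      rw [abs_mul t, abs_of_nonneg ht]
      gcongr
      exact Complex.abs_re_le_norm D
    have h3 : ‖D‖ ≤ l / 2 + ‖D‖ ^ 2 / (2 * l) := by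
      have h30 : 0 ≤ (‖D‖ - l) ^ 2 / (2 * l) := by positivity
      have e : (‖D‖ - l) ^ 2 / (2 * l) = l / 2 + ‖D‖ ^ 2 / (2 * l) - ‖D‖ := by
        field_simp; ring
      linarith
    have h4 : (1 + s) * t * ‖D‖ ≤ (1 + s) * t * (l / 2 + ‖D‖ ^ 2 / (2 * l)) := by
      apply mul_le_mul_of_nonneg_left h3 (by positivity)
    have h5 := mul_le_mul_of_nonneg_left h2 hs
    have e6 : (-((1 + s) * t / (2 * l))) * ‖D‖ ^ 2 = -((1 + s) * t * (‖D‖ ^ 2 / (2 * l))) := by ring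
    rw [e6]
    nlinarith
  have hmono := Av_mono (N + 1) _ _ hlow
  have hav : Av (N + 1) (fun ε => (A1 ε + (-s) * A2 ε) + ((-((1 + s) * t / (2 * l))) * A3 ε + (-((1 + s) * t * (l / 2)))))
      = (Av (N + 1) A1 + (-s) * Av (N + 1) A2) + ((-((1 + s) * t / (2 * l))) * Av (N + 1) A3 + (-((1 + s) * t * (l / 2)))) := by
    rw [Av_add (N + 1) (fun ε => A1 ε + (-s) * A2 ε)
      (fun ε => (-((1 + s) * t / (2 * l))) * A3 ε + (-((1 + s) * t * (l / 2)))),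
      Av_add (N + 1) A1 (fun ε => (-s) * A2 ε), Av_mul (N + 1) (-s) A2,
      Av_add (N + 1) (fun ε => (-((1 + s) * t / (2 * l))) * A3 ε)
      (fun _ => (-((1 + s) * t * (l / 2)))), Av_mul (N + 1) _ A3, Av_const]
  rw [hav] at hmono
  refine le_trans ?_ hmono
  have hup : |u| ≤ ‖P‖ := by rw [← hu]; exact Complex.abs_re_le_norm P
  have hb : ‖((t * u : ℝ) : ℂ)‖ = t * |u| := by
    rw [Complex.norm_real, Real.norm_eq_abs, abs_mul, abs_of_nonneg ht]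
  rw [hb] at hgain
  have h7 : (t * |u|) ^ 2 / ‖P‖ = t ^ 2 * (u ^ 2 / ‖P‖) := by
    rw [mul_pow, sq_abs, mul_div_assoc]
  have h8 : (t * |u|) ^ 4 / ‖P‖ ^ 3 ≤ t ^ 4 * |u| := by
    rw [mul_pow, mul_div_assoc]
    refine mul_le_mul_of_nonneg_left ?_ (by positivity)
    refine div_le_of_le_mul₀ (by positivity) (abs_nonneg _) ?_
    calc |u| ^ 4 = |u| * |u| ^ 3 := by ring
      _ ≤ |u| * ‖P‖ ^ 3 := by gcongr
  rw [h7] at hgain
  have h9 : s * Av (N + 1) A2 ≤ s * (|u| * (1 + 4 * t ^ 4)) := mul_le_mul_of_nonneg_left habs hs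
  have h10 : (1 + s) * t / (2 * l) * Av (N + 1) A3 ≤ (1 + s) * t / (2 * l) * (C / ((N : ℝ) - p.totalDegree)) :=
    mul_le_mul_of_nonneg_left hD (by positivity)
  have h11 : (1 + s) * t / (2 * l) * (C / ((N : ℝ) - p.totalDegree))
      = (1 + s) * t * (C / (2 * l * ((N : ℝ) - p.totalDegree))) := by
    rw [div_mul_div_comm, mul_div_assoc]
  rw [h11] at h10
  nlinarith

theorem abstract_main {X : Type} [MeasurableSpace X] (μ : Measure X) [IsFiniteMeasure μ] (hμ : μ univ ≠ 0)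
    (π : X → Fin 2 → ℂ) (hπ : Measurable π)
    (hs : ∀ᵐ x ∂μ, ‖π x 0‖ ^ 2 + ‖π x 1‖ ^ 2 = 1 ∧ π x 0 ≠ 0 ∧ π x 1 ≠ 0)
    (M : ℝ) (hM : ∀ p : MvPolynomial (Fin 2) ℂ, (MvPolynomial.constantCoeff p).im = 0 →
      ∫ x, ‖MvPolynomial.eval (π x) p‖ ∂μ ≤ M * ∫ x, |(MvPolynomial.eval (π x) p).re| ∂μ) : False := by
  classical
  have hs1 : ∀ᵐ x ∂μ, ‖π x 0‖ ^ 2 + ‖π x 1‖ ^ 2 = 1 := hs.mono fun x h => h.1
  have hint : ∀ p : MvPolynomial (Fin 2) ℂ, Integrable (fun x => MvPolynomial.eval (π x) p) μ :=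
    poly_integrable μ π hπ hs1
  have hintn : ∀ p : MvPolynomial (Fin 2) ℂ, Integrable (fun x => ‖MvPolynomial.eval (π x) p‖) μ :=
    fun p => (hint p).norm
  have hintr : ∀ p : MvPolynomial (Fin 2) ℂ,
      Integrable (fun x => |(MvPolynomial.eval (π x) p).re|) μ := fun p => (hint p).re.abs
  obtain ⟨I, hI⟩ : ∃ I : MvPolynomial (Fin 2) ℂ → ℝ,
    ∀ p, I p = ∫ x, ‖MvPolynomial.eval (π x) p‖ ∂μ := ⟨_, fun _ => rfl⟩
  obtain ⟨R, hR⟩ : ∃ R : MvPolynomial (Fin 2) ℂ → ℝ,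
    ∀ p, R p = ∫ x, |(MvPolynomial.eval (π x) p).re| ∂μ := ⟨_, fun _ => rfl⟩
  have hR0 : ∀ p, 0 ≤ R p := fun p => by rw [hR]; exact integral_nonneg fun x => abs_nonneg _
  obtain ⟨m, hm⟩ : ∃ m : ℝ, m = μ.real univ := ⟨_, rfl⟩
  have hm0 : 0 < m := by
    rw [hm, Measure.real, ENNReal.toReal_pos_iff]
    exact ⟨pos_iff_ne_zero.2 hμ, measure_lt_top μ _⟩
  have hM' : ∀ p : MvPolynomial (Fin 2) ℂ, (MvPolynomial.constantCoeff p).im = 0 →
      I p ≤ M * R p := fun p hp => by rw [hI, hR]; exact hM p hp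
  obtain ⟨S, hS⟩ : ∃ S : Set ℝ, S = {s : ℝ | 0 ≤ s ∧ ∀ p : MvPolynomial (Fin 2) ℂ,
    (MvPolynomial.constantCoeff p).im = 0 → I p ≤ s * R p} := ⟨_, rfl⟩
  have hSmem : ∀ s, s ∈ S ↔ 0 ≤ s ∧ ∀ p : MvPolynomial (Fin 2) ℂ,
    (MvPolynomial.constantCoeff p).im = 0 → I p ≤ s * R p := fun s => by rw [hS]; exact Iff.rfl
  have hSne : S.Nonempty := ⟨max M 0, (hSmem _).2 ⟨le_max_right _ _, fun p hp =>
    (hM' p hp).trans (mul_le_mul_of_nonneg_right (le_max_left _ _) (hR0 p))⟩⟩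
  have hSbdd : BddBelow S := ⟨0, fun s hs => ((hSmem s).1 hs).1⟩
  obtain ⟨s0, hs0⟩ : ∃ s0 : ℝ, s0 = sInf S := ⟨_, rfl⟩
  have hs00 : 0 ≤ s0 := by
    rw [hs0]; exact le_csInf hSne fun s hs => ((hSmem s).1 hs).1
  have hs0S : ∀ p : MvPolynomial (Fin 2) ℂ, (MvPolynomial.constantCoeff p).im = 0 →
      I p ≤ s0 * R p := by
    intro p hp
    rcases (hR0 p).eq_or_lt with h | h
    · obtain ⟨s, hs⟩ := hSne
      have := ((hSmem s).1 hs).2 p hp
      rw [← h, mul_zero] at this ⊢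
      exact this
    · rw [← div_le_iff₀ h, hs0]
      exact le_csInf hSne fun s hs => (div_le_iff₀ h).2 (((hSmem s).1 hs).2 p hp)
  have hs01 : 1 ≤ s0 := by
    have h1 := hs0S 1 (by simp)
    have e1 : I 1 = m := by rw [hI, hm]; simp
    have e2 : R 1 = m := by rw [hR, hm]; simp
    rw [e1, e2] at h1
    by_contra hlt
    push Not at hlt
    nlinarith
  have hs0p : 0 < s0 := by linarith
  obtain ⟨d, hd⟩ : ∃ d : ℝ, d = 1 / (2000 * s0 ^ 3) := ⟨_, rfl⟩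
  have hd0 : 0 < d := by rw [hd]; positivity
  have hd1 : d ≤ 1 := by
    rw [hd, div_le_one (by positivity)]
    have : 1 ≤ s0 ^ 3 := one_le_pow₀ hs01
    linarith
  have hnot : s0 - d ∉ S := fun h => by
    have := csInf_le hSbdd h
    rw [← hs0] at this
    linarith
  obtain ⟨p, hp, hplt⟩ : ∃ p : MvPolynomial (Fin 2) ℂ, (MvPolynomial.constantCoeff p).im = 0 ∧
      (s0 - d) * R p < I p := by
    by_contra hcon
    push Not at hcon
    exact hnot ((hSmem _).2 ⟨by linarith, hcon⟩)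
  obtain ⟨a, ha⟩ : ∃ a : ℝ, a = R p := ⟨_, rfl⟩
  have hIp : I p ≤ s0 * a := by rw [ha]; exact hs0S p hp
  rw [← ha] at hplt
  have ha0 : 0 < a := by
    rcases (hR0 p).eq_or_lt with h | h
    · exfalso
      rw [← ha] at h
      rw [← h, mul_zero] at hIp hplt
      linarith
    · rw [ha]; exact h
  obtain ⟨P, hP⟩ : ∃ P : X → ℂ, P = fun x => MvPolynomial.eval (π x) p := ⟨_, rfl⟩
  have hPx : ∀ x, MvPolynomial.eval (π x) p = P x := fun x => by rw [hP]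
  have i1 : Integrable (fun x => ‖P x‖) μ := by rw [hP]; exact hintn p
  have ir : Integrable (fun x => |(P x).re|) μ := by rw [hP]; exact hintr p
  have eI : ∫ x, ‖P x‖ ∂μ = I p := by rw [hI, hP]
  have eR : ∫ x, |(P x).re| ∂μ = a := by rw [ha, hR, hP]
  have hJint : Integrable (fun x => (P x).re ^ 2 / ‖P x‖) μ := by
    refine ir.mono' ?_ ?_
    · have hmP : Measurable P := by
        rw [hP]; exact (MvPolynomial.continuous_eval p).measurable.comp hπ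
      exact (((Complex.measurable_re.comp hmP).pow_const 2).div hmP.norm).aestronglyMeasurable
    · refine Eventually.of_forall fun x => ?_
      rw [Real.norm_of_nonneg (by positivity)]
      refine div_le_of_le_mul₀ (norm_nonneg _) (abs_nonneg _) ?_
      rw [← sq_abs, sq]
      exact mul_le_mul_of_nonneg_left (Complex.abs_re_le_norm _) (abs_nonneg _)
  obtain ⟨J, hJ⟩ : ∃ J : ℝ, J = ∫ x, (P x).re ^ 2 / ‖P x‖ ∂μ := ⟨_, rfl⟩
  have hJ1 : a ≤ (s0 / 2) * J + 1 / (2 * s0) * I p := by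
    have j1 : Integrable (fun x => (s0 / 2) * ((P x).re ^ 2 / ‖P x‖)) μ := hJint.const_mul _
    have j2 : Integrable (fun x => 1 / (2 * s0) * ‖P x‖) μ := i1.const_mul _
    have h1 : ∫ x, |(P x).re| ∂μ ≤
        ∫ x, ((s0 / 2) * ((P x).re ^ 2 / ‖P x‖) + 1 / (2 * s0) * ‖P x‖) ∂μ := by
      refine integral_mono ir (j1.add j2) fun x => ?_
      change |(P x).re| ≤ (s0 / 2) * ((P x).re ^ 2 / ‖P x‖) + 1 / (2 * s0) * ‖P x‖
      by_cases h0 : ‖P x‖ = 0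
      · have : P x = 0 := norm_eq_zero.1 h0
        simp [this]
      · have hpos : 0 < ‖P x‖ := lt_of_le_of_ne (norm_nonneg _) (Ne.symm h0)
        have h2 : 0 ≤ (s0 * |(P x).re| - ‖P x‖) ^ 2 / (2 * s0 * ‖P x‖) := by positivity
        have e : (s0 * |(P x).re| - ‖P x‖) ^ 2 / (2 * s0 * ‖P x‖)
            = (s0 / 2) * (|(P x).re| ^ 2 / ‖P x‖) + 1 / (2 * s0) * ‖P x‖ - |(P x).re| := by
          field_simp
          ring
        rw [sq_abs] at e
        linarith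
    rw [integral_add j1 j2, integral_const_mul, integral_const_mul, eR, eI, ← hJ] at h1
    exact h1
  have hJ2 : a / s0 ≤ J := by
    have h2 : 1 / (2 * s0) * I p ≤ 1 / (2 * s0) * (s0 * a) :=
      mul_le_mul_of_nonneg_left hIp (by positivity)
    have h3 : 1 / (2 * s0) * (s0 * a) = a / 2 := by field_simp
    rw [div_le_iff₀ hs0p]
    nlinarith
  obtain ⟨t, ht⟩ : ∃ t : ℝ, t = (Real.sqrt 60 * s0)⁻¹ := ⟨_, rfl⟩
  have ht0 : 0 < t := by rw [ht]; positivity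
  have ht2 : t ^ 2 = 1 / (60 * s0 ^ 2) := by
    rw [ht, inv_pow, mul_pow, Real.sq_sqrt (by norm_num), one_div]
  have ht4 : t ^ 4 = 1 / (3600 * s0 ^ 4) := by
    have : t ^ 4 = (t ^ 2) ^ 2 := by ring
    rw [this, ht2, div_pow, mul_pow]
    norm_num
    ring
  obtain ⟨C, hC0, hC⟩ := ptwise p
  obtain ⟨B, hB⟩ : ∃ B : ℝ, B = (1 + s0) * t * m := ⟨_, rfl⟩
  have hB0 : 0 < B := by rw [hB]; positivity
  obtain ⟨l, hl⟩ : ∃ l : ℝ, l = a / (4000 * s0 ^ 3 * B) := ⟨_, rfl⟩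
  have hl0 : 0 < l := by rw [hl]; positivity
  have hBl : B * (l / 2) = a / (8000 * s0 ^ 3) := by
    rw [hl]; field_simp; norm_num
  obtain ⟨k, hk⟩ := exists_nat_gt ((B * C / (2 * l)) / (a / (4000 * s0 ^ 3)))
  obtain ⟨N, hN⟩ : ∃ N : ℕ, N = p.totalDegree + 1 + k := ⟨_, rfl⟩
  have hNd : (N : ℝ) - p.totalDegree = k + 1 := by rw [hN]; push_cast; ring
  have hNlt : p.totalDegree < N := by omega
  have hδ : 0 < a / (4000 * s0 ^ 3) := by positivity
  have hBC : B * (C / (2 * l * ((N : ℝ) - p.totalDegree))) < a / (4000 * s0 ^ 3) := by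
    rw [hNd]
    have h1 : B * (C / (2 * l * ((k : ℝ) + 1))) = (B * C / (2 * l)) / (k + 1) := by
      rw [div_div, mul_div_assoc]
    rw [h1, div_lt_iff₀ (by positivity)]
    rw [div_lt_iff₀ hδ] at hk
    nlinarith
  obtain ⟨κ, hκ⟩ : ∃ κ : ℝ, κ = (1 + s0) * t * (l / 2 + C / (2 * l * ((N : ℝ) - p.totalDegree))) :=
    ⟨_, rfl⟩
  have hκm : κ * m < a / (2000 * s0 ^ 3) := by
    have e1 : κ * m = B * (l / 2) + B * (C / (2 * l * ((N : ℝ) - p.totalDegree))) := by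
      rw [hκ, hB]; ring
    have e2 : a / (2000 * s0 ^ 3) = 4 * (a / (8000 * s0 ^ 3)) := by field_simp; norm_num
    have e3 : a / (4000 * s0 ^ 3) = 2 * (a / (8000 * s0 ^ 3)) := by field_simp; norm_num
    have e4 : 0 < a / (8000 * s0 ^ 3) := by positivity
    rw [e1, hBl, e2]
    rw [e3] at hBC
    linarith
  have hg : ∀ ε : ℕ → ℂ, Integrable (fun x =>
      ‖MvPolynomial.eval (π x) (p + MvPolynomial.C (t : ℂ) * Qp p N ε)‖
        - s0 * |(MvPolynomial.eval (π x) (p + MvPolynomial.C (t : ℂ) * Qp p N ε)).re|) μ :=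
    fun ε => (hintn _).sub ((hintr _).const_mul _)
  obtain ⟨hAv, hAvint⟩ := Av_integral μ (N + 1) (fun ε x =>
      ‖MvPolynomial.eval (π x) (p + MvPolynomial.C (t : ℂ) * Qp p N ε)‖
        - s0 * |(MvPolynomial.eval (π x) (p + MvPolynomial.C (t : ℂ) * Qp p N ε)).re|) hg
  have hle : Av (N + 1) (fun ε => ∫ x,
      (‖MvPolynomial.eval (π x) (p + MvPolynomial.C (t : ℂ) * Qp p N ε)‖
        - s0 * |(MvPolynomial.eval (π x) (p + MvPolynomial.C (t : ℂ) * Qp p N ε)).re|) ∂μ) ≤ 0 := by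
    refine (Av_mono (N + 1) _ (fun _ => 0) fun ε => ?_).trans (Av_const (N + 1) 0).le
    rw [integral_sub (hintn _) ((hintr _).const_mul _), integral_const_mul, ← hI, ← hR]
    have := hs0S (p + MvPolynomial.C (t : ℂ) * Qp p N ε) (by
      rw [map_add, map_mul, constantCoeff_Qp p N hNlt ε, mul_zero, add_zero]; exact hp)
    linarith
  rw [hAv] at hle
  have i2 : Integrable (fun x => s0 * |(P x).re|) μ := ir.const_mul _
  have i3 : Integrable (fun x => (t ^ 2 / 6) * ((P x).re ^ 2 / ‖P x‖)) μ := hJint.const_mul _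
  have i4 : Integrable (fun x => t ^ 4 * (1 / 3 + 4 * s0) * |(P x).re|) μ := ir.const_mul _
  have i12 : Integrable (fun x => ‖P x‖ - s0 * |(P x).re|) μ := i1.sub i2
  have i123 : Integrable (fun x => ‖P x‖ - s0 * |(P x).re| + (t ^ 2 / 6) * ((P x).re ^ 2 / ‖P x‖)) μ :=
    i12.add i3
  have i1234 : Integrable (fun x => ‖P x‖ - s0 * |(P x).re| + (t ^ 2 / 6) * ((P x).re ^ 2 / ‖P x‖)
      - t ^ 4 * (1 / 3 + 4 * s0) * |(P x).re|) μ := i123.sub i4
  have i5 : Integrable (fun _ : X => κ) μ := integrable_const _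
  have hlow : ∫ x, (‖P x‖ - s0 * |(P x).re| + (t ^ 2 / 6) * ((P x).re ^ 2 / ‖P x‖)
      - t ^ 4 * (1 / 3 + 4 * s0) * |(P x).re| - κ) ∂μ ≤ 0 := by
    refine le_trans (integral_mono_ae (i1234.sub i5) hAvint ?_) hle
    filter_upwards [hs] with x hx
    have := hC N hNlt (π x) hx.1 hx.2.1 hx.2.2 t s0 l ht0.le hs00 hl0
    rw [hPx, ← hκ] at this
    exact this
  rw [integral_sub i1234 i5, integral_sub i123 i4, integral_add i12 i3, integral_sub i1 i2,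
    integral_const_mul, integral_const_mul, integral_const_mul, integral_const, eI, eR, ← hJ,
    ← hm, smul_eq_mul] at hlow
  -- numerical contradiction
  obtain ⟨q, hq⟩ : ∃ q : ℝ, q = a / s0 ^ 3 := ⟨_, rfl⟩
  have hq0 : 0 < q := by rw [hq]; positivity
  have n1 : d * a = q / 2000 := by rw [hd, hq]; field_simp
  have n2 : q / 360 ≤ t ^ 2 / 6 * J := by
    have : t ^ 2 / 6 * (a / s0) = q / 360 := by rw [ht2, hq]; field_simp; norm_num
    rw [← this]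
    exact mul_le_mul_of_nonneg_left hJ2 (by positivity)
  have n3 : t ^ 4 * (1 / 3 + 4 * s0) * a ≤ 13 / 10800 * q := by
    have h1 : t ^ 4 * (1 / 3 + 4 * s0) * a ≤ t ^ 4 * (13 / 3 * s0) * a := by
      have : 1 / 3 + 4 * s0 ≤ 13 / 3 * s0 := by linarith
      gcongr
    have h2 : t ^ 4 * (13 / 3 * s0) * a = 13 / 10800 * q := by
      rw [ht4, hq]; field_simp; norm_num
    linarith
  have n4 : a / (2000 * s0 ^ 3) = q / 2000 := by rw [hq]; field_simp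
  rw [n4] at hκm
  nlinarith

end Pool.Agent.Helper546.RW.E
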