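import Mathlib
import Pool.Agent.Helper546.RW.Defs
import Pool.Agent.Helper546.RW.E

set_option autoImplicit false

namespace Pool.Agent.Helper546.RW.F

open MeasureTheory Set Filter Topology
open scoped ENNReal NNReal
open Pool.Agent.Helper546.RW
open Pool.Agent.Helper546.RW.E

theorem final_main :
    ¬ (∀ n : ℕ, 2 ≤ n → ∃ M : ℝ, ∀ p : MvPolynomial (Fin n) ℂ,
      (MvPolynomial.constantCoeff p).im = 0 →
      ∫ z in {z : Fin n → ℂ | ∑ i, ‖z i‖ ^ 2 ≤ 1},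
          ‖MvPolynomial.eval (fun i => z i / ((Real.sqrt (∑ j, ‖z j‖ ^ 2) : ℝ) : ℂ)) p‖
        ≤ M * ∫ z in {z : Fin n → ℂ | ∑ i, ‖z i‖ ^ 2 ≤ 1},
          |(MvPolynomial.eval (fun i => z i / ((Real.sqrt (∑ j, ‖z j‖ ^ 2) : ℝ) : ℂ)) p).re|) := by
  intro h
  obtain ⟨M, hM⟩ := h 2 le_rfl
  let B : Set (Fin 2 → ℂ) := {z | ∑ i, ‖z i‖ ^ 2 ≤ 1}
  have hBsub : B ⊆ Metric.closedBall 0 1 := by
    intro z hz
    rw [mem_closedBall_zero_iff, pi_norm_le_iff_of_nonneg zero_le_one]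
    intro i
    have h1 : ‖z i‖ ^ 2 ≤ ∑ j, ‖z j‖ ^ 2 :=
      Finset.single_le_sum (f := fun j => ‖z j‖ ^ 2) (fun j _ => sq_nonneg _) (Finset.mem_univ i)
    have h2 : ‖z i‖ ^ 2 ≤ 1 := h1.trans hz
    exact (sq_le_one_iff₀ (norm_nonneg _)).mp h2
  have hBfin : (volume : Measure (Fin 2 → ℂ)) B < ⊤ := lt_of_le_of_lt (measure_mono hBsub) measure_closedBall_lt_top
  have hfin : IsFiniteMeasure ((volume : Measure (Fin 2 → ℂ)).restrict B) := ⟨by
    rw [Measure.restrict_apply_univ]; exact hBfin⟩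
  have hBpos : (volume : Measure (Fin 2 → ℂ)) B ≠ 0 := by
    have hsub : Metric.ball (0 : Fin 2 → ℂ) (1 / 2) ⊆ B := by
      intro z hz
      rw [mem_ball_zero_iff, pi_norm_lt_iff (by norm_num)] at hz
      show ∑ i, ‖z i‖ ^ 2 ≤ 1
      rw [Fin.sum_univ_two]
      have h0 := hz 0
      have h1 := hz 1
      have := norm_nonneg (z 0)
      have := norm_nonneg (z 1)
      nlinarith
    intro h0
    have h1 := measure_mono_null hsub h0
    exact (Metric.measure_ball_pos volume (0 : Fin 2 → ℂ) (by norm_num : (0:ℝ) < 1 / 2)).ne' h1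
  have hπ : Measurable (fun (z : Fin 2 → ℂ) (i : Fin 2) => z i / ((Real.sqrt (∑ j, ‖z j‖ ^ 2) : ℝ) : ℂ)) := by
    rw [measurable_pi_iff]
    intro i
    apply Measurable.div (measurable_pi_apply i)
    apply Complex.measurable_ofReal.comp
    apply Real.continuous_sqrt.measurable.comp
    exact (by fun_prop : Continuous (fun z : Fin 2 → ℂ => ∑ j, ‖z j‖ ^ 2)).measurable
  have hne : ∀ i : Fin 2, ∀ᵐ z ∂(volume : Measure (Fin 2 → ℂ)), z i ≠ 0 := by
    intro i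
    rw [ae_iff]
    have := Measure.pi_hyperplane (fun _ : Fin 2 => (volume : Measure ℂ)) i (0 : ℂ)
    rw [← volume_pi] at this
    convert this using 2
    ext z
    simp
  refine abstract_main ((volume : Measure (Fin 2 → ℂ)).restrict B) (by rw [Measure.restrict_apply_univ]; exact hBpos)
    (fun (z : Fin 2 → ℂ) (i : Fin 2) => z i / ((Real.sqrt (∑ j, ‖z j‖ ^ 2) : ℝ) : ℂ)) hπ ?_ M ?_
  · apply ae_restrict_of_ae
    filter_upwards [hne 0, hne 1] with z h0 h1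
    have hn0 : 0 < ‖z 0‖ := norm_pos_iff.mpr h0
    have hn1 : 0 < ‖z 1‖ := norm_pos_iff.mpr h1
    have hS : 0 < ∑ j, ‖z j‖ ^ 2 := by rw [Fin.sum_univ_two]; positivity
    have hs : 0 < Real.sqrt (∑ j, ‖z j‖ ^ 2) := Real.sqrt_pos.mpr hS
    have hsc : ((Real.sqrt (∑ j, ‖z j‖ ^ 2) : ℝ) : ℂ) ≠ 0 := by exact_mod_cast hs.ne'
    refine ⟨?_, div_ne_zero h0 hsc, div_ne_zero h1 hsc⟩
    rw [norm_div, norm_div, Complex.norm_real, Real.norm_eq_abs, abs_of_pos hs, div_pow, div_pow, Real.sq_sqrt hS.le,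
      ← add_div, Fin.sum_univ_two]
    rw [Fin.sum_univ_two] at hS
    exact div_self hS.ne'
  · intro p hp
    exact hM p hp

end Pool.Agent.Helper546.RW.F
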